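import Mathlib

section

/-! Winding numbers of analytic functions along circles centred at the origin. -/

set_option autoImplicit false

open Complex Metric Set Filter Topology
open scoped Real

namespace Pool.Agent.MP_476a06_an

/-- The winding number (as a complex number) of `h` along the circle of radius `ρ`. -/
noncomputable def wn (h : ℂ → ℂ) (ρ : ℝ) : ℂ :=
  (2 * π * I)⁻¹ * ∮ u in C(0, ρ), deriv h u / h u

/-- `h` is analytic and zero free on the circle of radius `ρ`. -/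
def Good (h : ℂ → ℂ) (ρ : ℝ) : Prop :=
  ∀ u ∈ sphere (0 : ℂ) ρ, AnalyticAt ℂ h u ∧ h u ≠ 0

lemma two_pi_I_ne : (2 * π * I : ℂ) ≠ 0 := Complex.two_pi_I_ne_zero

lemma int_const {X : Type*} [TopologicalSpace X] {s : Set X} (hs : IsPreconnected s) {f : X → ℂ}
    (hf : ContinuousOn f s) (h : ∀ x ∈ s, ∃ m : ℤ, f x = m) {x y : X} (hx : x ∈ s) (hy : y ∈ s) :
    f x = f y := by
  have hd : IsDiscrete (range ((↑) : ℤ → ℂ)) := by
    have : Topology.IsInducing ((↑) : ℤ → ℂ) := by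
      have h1 : Topology.IsInducing ((↑) : ℤ → ℝ) := Int.isClosedEmbedding_coe_real.isInducing
      have h2 : Topology.IsInducing ((↑) : ℝ → ℂ) := Complex.isometry_ofReal.isUniformInducing.isInducing
      have h3 := h2.comp h1
      convert h3 using 1
      ext m
      simp
    exact this.isDiscrete_range
  refine hs.constant_of_mapsTo hd hf ?_ hx hy
  intro z hz
  obtain ⟨m, hm⟩ := h z hz
  exact ⟨m, hm.symm⟩

lemma exp_integral_logDeriv {p p' : ℝ → ℂ} (hp : ∀ t, HasDerivAt p (p' t) t)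
    (hc : Continuous p') (h0 : ∀ t, p t ≠ 0) (a b : ℝ) :
    exp (∫ t in a..b, p' t / p t) * p a = p b := by
  have hpc : Continuous p := continuous_iff_continuousAt.2 fun t => (hp t).continuousAt
  have hq : Continuous fun t => p' t / p t := hc.div hpc h0
  have hM : ∀ t, HasDerivAt (fun s => ∫ x in a..s, p' x / p x) (p' t / p t) t := fun t =>
    (hq.integral_hasStrictDerivAt a t).hasDerivAt
  have hφ : ∀ t, HasDerivAt (fun s => exp (-(∫ x in a..s, p' x / p x)) * p s) 0 t := by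
    intro t
    have h1 := ((hM t).fun_neg.cexp).fun_mul (hp t)
    refine h1.congr_deriv ?_
    have := h0 t
    field_simp
    ring
  have hconst := is_const_of_deriv_eq_zero (fun t => (hφ t).differentiableAt)
    (fun t => (hφ t).deriv) b a
  simp only [intervalIntegral.integral_same, neg_zero, exp_zero, one_mul] at hconst
  rw [← hconst, ← mul_assoc, ← exp_add]
  simp

lemma integral_logDeriv_eq_of_lift {p p' l : ℝ → ℂ} (hp : ∀ t, HasDerivAt p (p' t) t)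
    (hc : Continuous p') (hl : Continuous l) (he : ∀ t, exp (l t) = p t) (a b : ℝ) :
    ∫ t in a..b, p' t / p t = l b - l a := by
  have h0 : ∀ t, p t ≠ 0 := fun t => he t ▸ exp_ne_zero _
  have hpc : Continuous p := continuous_iff_continuousAt.2 fun t => (hp t).continuousAt
  have hq : Continuous fun t => p' t / p t := hc.div hpc h0
  have hM : Continuous fun s => ∫ x in a..s, p' x / p x :=
    continuous_iff_continuousAt.2 fun t => (hq.integral_hasStrictDerivAt a t).hasDerivAt.continuousAt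
  have key : ∀ s, ∃ m : ℤ,
      ((∫ x in a..s, p' x / p x) + l a - l s) / (2 * π * I) = m := by
    intro s
    have h1 := exp_integral_logDeriv hp hc h0 a s
    rw [← he a, ← he s, ← exp_add, exp_eq_exp_iff_exists_int] at h1
    obtain ⟨m, hm⟩ := h1
    refine ⟨m, ?_⟩
    rw [hm, div_eq_iff two_pi_I_ne]
    ring
  have h2 := int_const (s := univ) isPreconnected_univ
    (f := fun s => ((∫ x in a..s, p' x / p x) + l a - l s) / (2 * π * I))
    (by fun_prop) (fun s _ => key s) (mem_univ b) (mem_univ a)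
  simp only [intervalIntegral.integral_same, zero_add, sub_self, zero_div] at h2
  rw [div_eq_zero_iff] at h2
  rcases h2 with h2 | h2
  · linear_combination h2
  · exact absurd h2 two_pi_I_ne

lemma Good.continuousOn {h : ℂ → ℂ} {ρ : ℝ} (hg : Good h ρ) :
    ContinuousOn (fun u => deriv h u / h u) (sphere 0 ρ) := fun u hu =>
  ((hg u hu).1.deriv.continuousAt.div (hg u hu).1.continuousAt (hg u hu).2).continuousWithinAt

lemma Good.circleIntegrable {h : ℂ → ℂ} {ρ : ℝ} (hρ : 0 ≤ ρ) (hg : Good h ρ) :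
    CircleIntegrable (fun u => deriv h u / h u) 0 ρ := hg.continuousOn.circleIntegrable hρ

lemma Good.mul {h g : ℂ → ℂ} {ρ : ℝ} (hh : Good h ρ) (hg : Good g ρ) :
    Good (fun u => h u * g u) ρ := fun u hu =>
  ⟨(hh u hu).1.mul (hg u hu).1, mul_ne_zero (hh u hu).2 (hg u hu).2⟩

lemma circle_hasDerivAt {h : ℂ → ℂ} {ρ : ℝ} (hρ : 0 ≤ ρ) (hg : ∀ u ∈ sphere (0 : ℂ) ρ, AnalyticAt ℂ h u)
    (t : ℝ) : HasDerivAt (fun t => h (circleMap 0 ρ t))
      (deriv h (circleMap 0 ρ t) * (circleMap 0 ρ t * I)) t :=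
  (hg _ (circleMap_mem_sphere 0 hρ t)).differentiableAt.hasDerivAt.comp_of_eq t
    (hasDerivAt_circleMap 0 ρ t) rfl

lemma circle_continuous {h : ℂ → ℂ} {ρ : ℝ} (hρ : 0 ≤ ρ)
    (hg : ∀ u ∈ sphere (0 : ℂ) ρ, ContinuousAt h u) :
    Continuous (fun t => h (circleMap 0 ρ t)) :=
  continuous_iff_continuousAt.2 fun t =>
    ContinuousAt.comp (f := circleMap 0 ρ) (hg _ (circleMap_mem_sphere 0 hρ t))
      (continuous_circleMap 0 ρ).continuousAt

lemma wn_eq_interval (h : ℂ → ℂ) (ρ : ℝ) : wn h ρ = (2 * π * I)⁻¹ *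
    ∫ t in (0 : ℝ)..2 * π, (deriv h (circleMap 0 ρ t) * (circleMap 0 ρ t * I)) / h (circleMap 0 ρ t) := by
  unfold wn circleIntegral
  congr 1
  refine intervalIntegral.integral_congr fun t _ => ?_
  simp only [deriv_circleMap, smul_eq_mul]
  ring

lemma Good.exists_int {h : ℂ → ℂ} {ρ : ℝ} (hρ : 0 ≤ ρ) (hg : Good h ρ) : ∃ m : ℤ, wn h ρ = m := by
  have h1 := exp_integral_logDeriv (circle_hasDerivAt hρ fun u hu => (hg u hu).1)
    ((circle_continuous hρ fun u hu => (hg u hu).1.deriv.continuousAt).mul (by fun_prop))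
    (fun t => (hg _ (circleMap_mem_sphere 0 hρ t)).2) 0 (2 * π)
  have hper : circleMap 0 ρ (2 * π) = circleMap 0 ρ 0 := by
    simpa using periodic_circleMap 0 ρ 0
  rw [hper] at h1
  have h2 := mul_right_cancel₀ (hg _ (circleMap_mem_sphere 0 hρ 0)).2 (h1.trans (one_mul _).symm)
  rw [exp_eq_one_iff] at h2
  obtain ⟨m, hm⟩ := h2
  refine ⟨m, ?_⟩
  rw [wn_eq_interval, hm]
  field_simp

lemma wn_congr {h g : ℂ → ℂ} {ρ : ℝ} (hρ : 0 ≤ ρ) (he : ∀ u ∈ sphere (0 : ℂ) ρ, h =ᶠ[𝓝 u] g) :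
    wn h ρ = wn g ρ := by
  unfold wn
  congr 1
  refine circleIntegral.integral_congr hρ fun u hu => ?_
  simp only [(he u hu).deriv_eq, (he u hu).eq_of_nhds]

lemma Good.congr {h g : ℂ → ℂ} {ρ : ℝ} (hh : Good h ρ) (he : ∀ u ∈ sphere (0 : ℂ) ρ, h =ᶠ[𝓝 u] g) :
    Good g ρ := fun u hu =>
  ⟨(hh u hu).1.congr (he u hu), (he u hu).eq_of_nhds ▸ (hh u hu).2⟩

lemma wn_mul {h g : ℂ → ℂ} {ρ : ℝ} (hρ : 0 ≤ ρ) (hh : Good h ρ) (hg : Good g ρ) :
    wn (fun u => h u * g u) ρ = wn h ρ + wn g ρ := by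
  unfold wn
  rw [← mul_add, ← circleIntegral.integral_add (hh.circleIntegrable hρ) (hg.circleIntegrable hρ)]
  congr 1
  refine circleIntegral.integral_congr hρ fun u hu => ?_
  have h1 := (hh u hu).2
  have h2 := (hg u hu).2
  simp only
  rw [deriv_fun_mul (hh u hu).1.differentiableAt (hg u hu).1.differentiableAt]
  field_simp

lemma wn_slit {h : ℂ → ℂ} {ρ : ℝ} (hρ : 0 ≤ ρ)
    (hh : ∀ u ∈ sphere (0 : ℂ) ρ, AnalyticAt ℂ h u ∧ h u ∈ slitPlane) : wn h ρ = 0 := by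
  unfold wn
  rw [circleIntegral.integral_eq_zero_of_hasDerivWithinAt (f := fun u => log (h u)) hρ, mul_zero]
  intro u hu
  exact ((hh u hu).1.differentiableAt.hasDerivAt.clog (hh u hu).2).hasDerivWithinAt

lemma wn_const (c : ℂ) (ρ : ℝ) : wn (fun _ => c) ρ = 0 := by
  simp [wn, circleIntegral]

lemma wn_eq_of_close {h g : ℂ → ℂ} {ρ : ℝ} (hρ : 0 ≤ ρ) (hh : Good h ρ)
    (hg : ∀ u ∈ sphere (0 : ℂ) ρ, AnalyticAt ℂ g u ∧ ‖g u - h u‖ < ‖h u‖) :
    Good g ρ ∧ wn g ρ = wn h ρ := by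
  have hq : ∀ u ∈ sphere (0 : ℂ) ρ, AnalyticAt ℂ (fun u => g u / h u) u ∧ g u / h u ∈ slitPlane := by
    intro u hu
    refine ⟨(hg u hu).1.div (hh u hu).1 (hh u hu).2, ?_⟩
    have h0 := (hh u hu).2
    have : g u / h u = 1 + (g u - h u) / h u := by field_simp; ring
    rw [this]
    apply mem_slitPlane_of_norm_lt_one
    rw [norm_div, div_lt_one (norm_pos_iff.2 h0)]
    exact (hg u hu).2
  have hq' : Good (fun u => g u / h u) ρ := fun u hu => ⟨(hq u hu).1, slitPlane_ne_zero (hq u hu).2⟩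
  have he : ∀ u ∈ sphere (0 : ℂ) ρ, (fun u => h u * (g u / h u)) =ᶠ[𝓝 u] g := by
    intro u hu
    filter_upwards [(hh u hu).1.continuousAt.eventually_ne (hh u hu).2] with v hv
    field_simp
  refine ⟨(hh.mul hq').congr he, ?_⟩
  rw [← wn_congr hρ he, wn_mul hρ hh hq', wn_slit hρ hq, add_zero]

lemma good_sub {b : ℂ} {ρ : ℝ} (hb : ‖b‖ ≠ ρ) : Good (fun u => u - b) ρ := by
  intro u hu
  refine ⟨by fun_prop, fun h => hb ?_⟩
  rw [← sub_eq_zero.1 h]
  simpa using hu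

lemma wn_sub_in {b : ℂ} {ρ : ℝ} (hb : ‖b‖ < ρ) : wn (fun u => u - b) ρ = 1 := by
  unfold wn
  have := circleIntegral.integral_sub_inv_of_mem_ball (c := 0) (w := b) (R := ρ) (by simpa using hb)
  simp only [deriv_sub_const, deriv_id'', one_div]
  rw [this]
  field_simp

lemma wn_sub_out {b : ℂ} {ρ : ℝ} (hρ : 0 ≤ ρ) (hb : ρ < ‖b‖) : wn (fun u => u - b) ρ = 0 := by
  have hb0 : b ≠ 0 := norm_pos_iff.1 (hρ.trans_lt hb)
  have h1 : Good (fun _ => -b) ρ := fun u _ => ⟨by fun_prop, neg_ne_zero.2 hb0⟩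
  rw [(wn_eq_of_close hρ h1 (g := fun u => u - b) ?_).2, wn_const]
  intro u hu
  refine ⟨by fun_prop, ?_⟩
  have : ‖u‖ = ρ := by simpa using hu
  simpa [this] using hb

lemma wn_annulus {h : ℂ → ℂ} {r R : ℝ} (hr : 0 < r) (hle : r ≤ R)
    (hh : ∀ u : ℂ, r ≤ ‖u‖ → ‖u‖ ≤ R → AnalyticAt ℂ h u ∧ h u ≠ 0) : wn h R = wn h r := by
  unfold wn
  congr 1
  have hd : ∀ u : ℂ, r ≤ ‖u‖ → ‖u‖ ≤ R → AnalyticAt ℂ (fun u => deriv h u / h u) u :=
    fun u h1 h2 => (hh u h1 h2).1.deriv.div (hh u h1 h2).1 (hh u h1 h2).2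
  refine circleIntegral_eq_of_differentiable_on_annulus_off_countable hr hle countable_empty ?_ ?_
  · intro u hu
    simp only [Set.mem_sdiff, mem_closedBall, dist_zero_right, mem_ball, not_lt] at hu
    exact (hd u hu.2 hu.1).continuousAt.continuousWithinAt
  · intro u hu
    simp only [Set.mem_sdiff, mem_closedBall, dist_zero_right, mem_ball, not_le] at hu
    exact (hd u hu.1.2.le hu.1.1.le).differentiableAt

lemma differentiableOn_iterate_dslope {U : Set ℂ} {b : ℂ} (hb : U ∈ 𝓝 b) (m : ℕ) :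
    ∀ {f : ℂ → ℂ}, DifferentiableOn ℂ f U →
      DifferentiableOn ℂ ((Function.swap dslope b)^[m] f) U := by
  induction m with
  | zero => intro f hf; exact hf
  | succ m ih =>
    intro f hf
    rw [Function.iterate_succ_apply]
    exact ih ((differentiableOn_dslope hb).2 hf)

lemma finite_zeros {U K : Set ℂ} (hU : IsOpen U) (hc : IsPreconnected U) (hK : IsCompact K)
    (hKU : K ⊆ U) {f : ℂ → ℂ} (hf : DifferentiableOn ℂ f U) (hne : ∃ x ∈ U, f x ≠ 0) :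
    {x ∈ K | f x = 0}.Finite := by
  by_contra hinf
  have hinf' : {x ∈ K | f x = 0}.Infinite := hinf
  obtain ⟨z, hzK, hz⟩ := hinf'.exists_accPt_of_subset_isCompact hK (sep_subset _ _)
  have han := hf.analyticOnNhd hU
  have hfr : ∃ᶠ w in 𝓝[≠] z, f w = 0 := by
    rw [accPt_iff_frequently_nhdsNE] at hz
    exact hz.mono fun w hw => hw.2
  obtain ⟨x, hx, hx0⟩ := hne
  exact hx0 (han.eqOn_zero_of_preconnected_of_frequently_eq_zero hc (hKU hzK) hfr hx)

lemma exists_factor {U K : Set ℂ} (hU : IsOpen U) (hc : IsPreconnected U) (hK : IsCompact K)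
    (hKU : K ⊆ U) {f : ℂ → ℂ} (hf : DifferentiableOn ℂ f U) (hne : ∃ x ∈ U, f x ≠ 0) :
    ∃ (l : List ℂ) (g : ℂ → ℂ), (∀ b ∈ l, b ∈ K) ∧ DifferentiableOn ℂ g U ∧ (∀ x ∈ K, g x ≠ 0) ∧
      ∀ x, f x = (l.map fun b => x - b).prod * g x := by
  classical
  have main : ∀ S : Finset ℂ, ∀ f : ℂ → ℂ, DifferentiableOn ℂ f U → (∃ x ∈ U, f x ≠ 0) →
      (∀ x ∈ K, f x = 0 → x ∈ S) →
      ∃ (l : List ℂ) (g : ℂ → ℂ), (∀ b ∈ l, b ∈ K) ∧ DifferentiableOn ℂ g U ∧ (∀ x ∈ K, g x ≠ 0) ∧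
        ∀ x, f x = (l.map fun b => x - b).prod * g x := by
    intro S
    induction S using Finset.induction_on with
    | empty =>
      intro f hf _ hz
      exact ⟨[], f, by simp, hf, fun x hx h0 => by simpa using hz x hx h0, by simp⟩
    | insert b S hbS ih =>
      intro f hf hne hz
      by_cases hbK : b ∈ K
      · have hbU := hU.mem_nhds (hKU hbK)
        obtain ⟨p, hp⟩ := hf.analyticAt hbU
        have hp0 : p ≠ 0 := by
          intro h0
          obtain ⟨x, hx, hx0⟩ := hne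
          have := hp.locally_zero_iff.2 h0
          exact hx0 ((hf.analyticOnNhd hU).eqOn_zero_of_preconnected_of_eventuallyEq_zero hc
            (hKU hbK) this hx)
        have hfac := hp.eq_pow_order_mul_iterate_dslope
        have hg0 := hp.iterate_dslope_fslope_ne_zero hp0
        have hgd := differentiableOn_iterate_dslope hbU p.order hf
        obtain ⟨l, g, hl, hg, hgK, hfg⟩ := ih _ hgd ⟨b, hKU hbK, hg0⟩ (by
          intro x hx h0
          have h1 : f x = 0 := by rw [hfac x, h0, smul_zero]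
          rcases Finset.mem_insert.1 (hz x hx h1) with h | h
          · exact absurd (h ▸ h0) hg0
          · exact h)
        refine ⟨List.replicate p.order b ++ l, g, ?_, hg, hgK, fun x => ?_⟩
        · intro c hc
          rcases List.mem_append.1 hc with h | h
          · exact (List.eq_of_mem_replicate h) ▸ hbK
          · exact hl c h
        · rw [hfac x, hfg x]
          simp [mul_assoc]
      · refine ih f hf hne fun x hx h0 => ?_
        rcases Finset.mem_insert.1 (hz x hx h0) with h | h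
        · exact absurd (h ▸ hx) hbK
        · exact h
  exact main (finite_zeros hU hc hK hKU hf hne).toFinset f hf hne fun x hx h0 => by simp [hx, h0]

lemma wn_list_prod {ι : Type*} (l : List ι) {F : ι → ℂ → ℂ} {ρ : ℝ} (hρ : 0 ≤ ρ)
    (hF : ∀ i ∈ l, Good (F i) ρ) :
    Good (fun u => (l.map fun i => F i u).prod) ρ ∧
      wn (fun u => (l.map fun i => F i u).prod) ρ = (l.map fun i => wn (F i) ρ).sum := by
  induction l with
  | nil => exact ⟨fun u _ => ⟨by simpa using analyticAt_const, by simp⟩, by simpa using wn_const 1 ρ⟩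
  | cons a l ih =>
    obtain ⟨h1, h2⟩ := ih fun i hi => hF i (List.mem_cons_of_mem _ hi)
    have ha := hF a List.mem_cons_self
    simp only [List.map_cons, List.prod_cons, List.sum_cons]
    exact ⟨ha.mul h1, by rw [wn_mul hρ ha h1, h2]⟩

lemma isPreconnected_annulus (a b : ℝ) (ha : 0 ≤ a) :
    IsPreconnected {u : ℂ | a < ‖u‖ ∧ ‖u‖ < b} := by
  have : {u : ℂ | a < ‖u‖ ∧ ‖u‖ < b} =
      (fun p : ℝ × ℝ => circleMap 0 p.1 p.2) '' (Ioo a b ×ˢ univ) := by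
    ext u
    simp only [mem_ofPred_eq, mem_image, mem_prod, mem_Ioo, mem_univ, and_true, Prod.exists]
    constructor
    · rintro ⟨h1, h2⟩
      exact ⟨‖u‖, arg u, ⟨h1, h2⟩, by simp [circleMap]⟩
    · rintro ⟨r, θ, ⟨h1, h2⟩, rfl⟩
      rw [norm_circleMap_zero, abs_of_pos (ha.trans_lt h1)]
      exact ⟨h1, h2⟩
  rw [this]
  refine (isPreconnected_Ioo.prod isPreconnected_univ).image _ (Continuous.continuousOn ?_)
  unfold circleMap
  fun_prop

lemma isOpen_annulus (a b : ℝ) : IsOpen {u : ℂ | a < ‖u‖ ∧ ‖u‖ < b} :=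
  (isOpen_lt continuous_const continuous_norm).inter (isOpen_lt continuous_norm continuous_const)

lemma isCompact_annulus (a b : ℝ) : IsCompact {u : ℂ | a ≤ ‖u‖ ∧ ‖u‖ ≤ b} := by
  refine (isCompact_closedBall (0 : ℂ) b).of_isClosed_subset
    ((isClosed_le continuous_const continuous_norm).inter
      (isClosed_le continuous_norm continuous_const)) fun u hu => by simpa using hu.2

/-- Argument principle on an annulus, as an inequality. -/
lemma wn_annulus_le {h : ℂ → ℂ} {a r R b : ℝ} (ha : 0 ≤ a) (har : a < r) (hle : r ≤ R) (hRb : R < b)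
    (hh : DifferentiableOn ℂ h {u : ℂ | a < ‖u‖ ∧ ‖u‖ < b})
    (h1 : ∀ u ∈ sphere (0 : ℂ) r, h u ≠ 0) (h2 : ∀ u ∈ sphere (0 : ℂ) R, h u ≠ 0) :
    (wn h r).re ≤ (wn h R).re := by
  have hr : 0 < r := ha.trans_lt har
  have hR : 0 < R := hr.trans_le hle
  have hsub : {u : ℂ | r ≤ ‖u‖ ∧ ‖u‖ ≤ R} ⊆ {u : ℂ | a < ‖u‖ ∧ ‖u‖ < b} :=
    fun u hu => ⟨har.trans_le hu.1, hu.2.trans_lt hRb⟩
  obtain ⟨l, g, hl, hg, hgK, hfg⟩ := exists_factor (isOpen_annulus a b) (isPreconnected_annulus a b ha)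
    (isCompact_annulus r R) hsub hh ⟨r, hsub (by simp [abs_of_pos hr, hle]),
      h1 _ (by simp [abs_of_pos hr])⟩
  have hga : ∀ u : ℂ, r ≤ ‖u‖ → ‖u‖ ≤ R → AnalyticAt ℂ g u ∧ g u ≠ 0 := fun u h1 h2 =>
    ⟨hg.analyticAt ((isOpen_annulus a b).mem_nhds (hsub ⟨h1, h2⟩)), hgK u ⟨h1, h2⟩⟩
  have hz : ∀ c ∈ l, h c = 0 := by
    intro c hc
    rw [hfg c, List.prod_eq_zero, zero_mul]
    exact List.mem_map.2 ⟨c, hc, sub_self c⟩
  have hcr : ∀ c ∈ l, r < ‖c‖ := fun c hc =>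
    lt_of_le_of_ne (hl c hc).1 fun he => h1 c (by simp [he]) (hz c hc)
  have hcR : ∀ c ∈ l, ‖c‖ < R := fun c hc =>
    lt_of_le_of_ne (hl c hc).2 fun he => h2 c (by simp [he]) (hz c hc)
  have hgr : Good g r := fun u hu => by
    have : ‖u‖ = r := by simpa using hu
    exact hga u this.ge (this.le.trans hle)
  have hgR : Good g R := fun u hu => by
    have : ‖u‖ = R := by simpa using hu
    exact hga u (hle.trans this.ge) this.le
  obtain ⟨p1, e1⟩ := wn_list_prod l (F := fun c u => u - c) hr.le fun c hc => good_sub (hcr c hc).ne'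
  obtain ⟨p2, e2⟩ := wn_list_prod l (F := fun c u => u - c) hR.le fun c hc => good_sub (hcR c hc).ne
  have hfun : h = fun u => (l.map fun c => u - c).prod * g u := funext hfg
  rw [hfun, wn_mul hr.le p1 hgr, wn_mul hR.le p2 hgR, e1, e2, wn_annulus hr hle hga]
  have z1 : (l.map fun c => wn (fun u => u - c) r) = l.map fun _ => (0 : ℂ) :=
    List.map_congr_left fun c hc => wn_sub_out hr.le (hcr c hc)
  have z2 : (l.map fun c => wn (fun u => u - c) R) = l.map fun _ => (1 : ℂ) :=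
    List.map_congr_left fun c hc => wn_sub_in (hcR c hc)
  rw [z1, z2]
  simp

end Pool.Agent.MP_476a06_an

end

section

/-! Holomorphic collar coordinates around analytic Jordan curves. -/

set_option autoImplicit false

open Complex Metric Set Filter Topology
open scoped Real

namespace Pool.Agent.MP_476a06_an

/-- The standard parametrisation of the unit circle with period one. -/
noncomputable def ee (t : ℝ) : ℂ := exp (2 * π * I * t)

lemma norm_ee (t : ℝ) : ‖ee t‖ = 1 := by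
  have : (2 * π * I * t : ℂ) = ((2 * π * t : ℝ) : ℂ) * I := by push_cast; ring
  rw [ee, this, norm_exp_ofReal_mul_I]

lemma ee_ne_zero (t : ℝ) : ee t ≠ 0 := exp_ne_zero _

lemma exists_ee {v : ℂ} (hv : ‖v‖ = 1) : ∃ t : ℝ, ee t = v := by
  refine ⟨arg v / (2 * π), ?_⟩
  have h1 : (2 * π * I * ((arg v / (2 * π) : ℝ) : ℂ)) = arg v * I := by
    have : (π : ℂ) ≠ 0 := by exact_mod_cast Real.pi_ne_zero
    push_cast
    field_simp
  rw [ee, h1]
  have := norm_mul_exp_arg_mul_I v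
  rwa [hv, ofReal_one, one_mul] at this

lemma hasDerivAt_ee (t : ℝ) : HasDerivAt ee (2 * π * I * ee t) t := by
  have h1 : HasDerivAt (fun z : ℂ => exp (2 * π * I * z)) (exp (2 * π * I * t) * (2 * π * I * 1)) t :=
    ((hasDerivAt_id (t : ℂ)).const_mul (2 * π * I)).cexp
  refine (h1.comp_ofReal).congr_deriv ?_
  rw [ee]
  ring

lemma ee_eq_iff {s t : ℝ} (h : ee s = ee t) : ∃ m : ℤ, s = t + m := by
  obtain ⟨m, hm⟩ := exp_eq_exp_iff_exists_int.1 h
  refine ⟨m, ?_⟩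
  have h2 : (2 * π * I : ℂ) * (s : ℂ) = (2 * π * I) * ((t : ℂ) + m) := by rw [hm]; ring
  exact_mod_cast mul_left_cancel₀ two_pi_I_ne h2

lemma ee_add_int (t : ℝ) (m : ℤ) : ee (t + m) = ee t := by
  unfold ee
  rw [exp_eq_exp_iff_exists_int]
  exact ⟨m, by push_cast; ring⟩

lemma per_int {γ : ℝ → ℂ} (hp : Function.Periodic γ 1) (t : ℝ) (m : ℤ) : γ (t + m) = γ t := by
  simpa using hp.int_mul m t

lemma exists_complexification {γ : ℝ → ℂ} {t₀ : ℝ} (h : AnalyticAt ℝ γ t₀) :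
    ∃ G : ℂ → ℂ, AnalyticAt ℂ G t₀ ∧ ∀ᶠ t : ℝ in 𝓝 t₀, G t = γ t := by
  obtain ⟨p, r, hp⟩ := h
  set q : FormalMultilinearSeries ℂ ℂ ℂ := FormalMultilinearSeries.ofScalars ℂ fun n => p.coeff n
    with hq
  have hrad : q.radius = p.radius := by
    unfold FormalMultilinearSeries.radius
    simp only [hq, FormalMultilinearSeries.ofScalars_norm,
      FormalMultilinearSeries.norm_apply_eq_norm_coef (p := p)]
  have hpos : 0 < q.radius := hrad ▸ hp.r_pos.trans_le hp.r_le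
  have han : AnalyticAt ℂ q.sum 0 := (q.hasFPowerSeriesOnBall hpos).analyticAt
  refine ⟨fun z => q.sum (z - t₀), ?_, ?_⟩
  · exact han.comp_of_eq (by fun_prop) (by simp)
  · have hb : ∀ᶠ t : ℝ in 𝓝 t₀, t ∈ Metric.eball t₀ r := Metric.eball_mem_nhds t₀ hp.r_pos
    filter_upwards [hb] with t ht
    have hs := hp.hasSum_sub ht
    have : (fun n => q n fun _ => ((t : ℂ) - t₀)) = fun n => p n fun _ => t - t₀ := by
      ext n
      rw [hq, FormalMultilinearSeries.ofScalars_apply_eq,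
        FormalMultilinearSeries.apply_eq_pow_smul_coeff]
      simp [mul_comm]
    rw [FormalMultilinearSeries.sum, this, hs.tsum_eq]

lemma exists_local_ext {γ : ℝ → ℂ} (h : AnalyticOnNhd ℝ γ univ) (hp : Function.Periodic γ 1)
    {v : ℂ} (hv : ‖v‖ = 1) :
    ∃ (Φ : ℂ → ℂ) (r : ℝ), 0 < r ∧ AnalyticOnNhd ℂ Φ (ball v r) ∧
      ∀ t : ℝ, ee t ∈ ball v r → Φ (ee t) = γ t := by
  obtain ⟨t₀, rfl⟩ := exists_ee hv
  obtain ⟨G, hG, hGγ⟩ := exists_complexification (h t₀ (mem_univ _))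
  set σ : ℂ → ℂ := fun u => t₀ + log (u / ee t₀) / (2 * π * I) with hσ
  have hσa : AnalyticAt ℂ σ (ee t₀) := by
    refine analyticAt_const.add (AnalyticAt.div_const ?_)
    refine AnalyticAt.clog (by fun_prop) ?_
    rw [div_self (ee_ne_zero _)]
    exact one_mem_slitPlane
  have hσ0 : σ (ee t₀) = t₀ := by simp [hσ, div_self (ee_ne_zero t₀)]
  have hΦ : AnalyticAt ℂ (fun u => G (σ u)) (ee t₀) := hG.comp_of_eq hσa hσ0
  obtain ⟨ε, hε, hε'⟩ := Metric.eventually_nhds_iff.1 hGγ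
  have hclose : ∀ᶠ u in 𝓝 (ee t₀), dist (σ u) t₀ < ε := by
    have := hσa.continuousAt.tendsto
    rw [hσ0] at this
    exact this.eventually (ball_mem_nhds _ hε)
  obtain ⟨r, hr, hr'⟩ := Metric.eventually_nhds_iff_ball.1 (hclose.and hΦ.eventually_analyticAt)
  refine ⟨fun u => G (σ u), r, hr, fun u hu => (hr' u hu).2, fun t ht => ?_⟩
  have h1 : exp (log (ee t / ee t₀)) = exp (2 * π * I * (t - t₀)) := by
    rw [exp_log (div_ne_zero (ee_ne_zero _) (ee_ne_zero _)), mul_sub, exp_sub]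
    rfl
  obtain ⟨m, hm⟩ := exp_eq_exp_iff_exists_int.1 h1
  have h2 : σ (ee t) = ((t + m : ℝ) : ℂ) := by
    simp only [hσ, hm]
    push_cast
    have := two_pi_I_ne
    field_simp
    ring
  have h3 := (hr' _ ht).1
  rw [h2, Complex.isometry_ofReal.dist_eq] at h3
  simp only [h2]
  rw [hε' h3, per_int hp]

lemma norm_normalize {u : ℂ} (hu : u ≠ 0) : ‖u / (‖u‖ : ℂ)‖ = 1 := by
  rw [norm_div, norm_real, norm_norm, div_self (norm_ne_zero_iff.2 hu)]

lemma dist_normalize {u : ℂ} (hu : u ≠ 0) : dist u (u / (‖u‖ : ℂ)) = |‖u‖ - 1| := by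
  have h0 : (‖u‖ : ℂ) ≠ 0 := by exact_mod_cast norm_ne_zero_iff.2 hu
  have : u - u / (‖u‖ : ℂ) = ((‖u‖ - 1 : ℝ) : ℂ) * (u / (‖u‖ : ℂ)) := by
    push_cast
    field_simp
  rw [dist_eq_norm, this, norm_mul, norm_normalize hu, mul_one, norm_real, Real.norm_eq_abs]

lemma exists_global_ext {γ : ℝ → ℂ} (h : AnalyticOnNhd ℝ γ univ) (hp : Function.Periodic γ 1) :
    ∃ Ψ : ℂ → ℂ, (∀ v : ℂ, ‖v‖ = 1 → AnalyticAt ℂ Ψ v) ∧ ∀ t : ℝ, Ψ (ee t) = γ t := by
  have hloc : ∀ v : sphere (0 : ℂ) 1, ∃ (Φ : ℂ → ℂ) (r : ℝ), 0 < r ∧ AnalyticOnNhd ℂ Φ (ball v r) ∧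
      ∀ t : ℝ, ee t ∈ ball (v : ℂ) r → Φ (ee t) = γ t := fun v =>
    exists_local_ext h hp (by simp)
  choose Φ r hr hΦ hΦγ using hloc
  obtain ⟨δ, hδ, hleb⟩ := lebesgue_number_lemma_of_metric (isCompact_sphere (0 : ℂ) 1)
    (c := fun v : sphere (0 : ℂ) 1 => ball (v : ℂ) (r v)) (fun _ => isOpen_ball)
    (fun v hv => mem_iUnion.2 ⟨⟨v, hv⟩, mem_ball_self (hr _)⟩)
  have hF : ∀ x : ℂ, ∃ F : ℂ → ℂ, ‖x‖ = 1 → AnalyticOnNhd ℂ F (ball x δ) ∧
      ∀ t : ℝ, ee t ∈ ball x δ → F (ee t) = γ t := by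
    intro x
    by_cases hx : ‖x‖ = 1
    · obtain ⟨i, hi⟩ := hleb x (by simpa using hx)
      exact ⟨Φ i, fun _ => ⟨(hΦ i).mono hi, fun t ht => hΦγ i t (hi ht)⟩⟩
    · exact ⟨0, fun h => absurd h hx⟩
  choose F hF using hF
  refine ⟨fun u => F (u / (‖u‖ : ℂ)) u, fun v hv => ?_, fun t => ?_⟩
  · have hv0 : v ≠ 0 := by rintro rfl; simp at hv
    have hπ : ContinuousAt (fun u : ℂ => u / (‖u‖ : ℂ)) v :=
      continuousAt_id.div (by fun_prop) (by simp [hv])
    have hπv : v / (‖v‖ : ℂ) = v := by simp [hv]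
    have e1 : ∀ᶠ u in 𝓝 v, u ≠ 0 := eventually_ne_nhds hv0
    have e2 : ∀ᶠ u in 𝓝 v, u ∈ ball v δ := ball_mem_nhds v hδ
    have e3 : ∀ᶠ u in 𝓝 v, dist v (u / (‖u‖ : ℂ)) < δ := by
      have : ContinuousAt (fun u : ℂ => dist v (u / (‖u‖ : ℂ))) v := continuousAt_const.dist hπ
      exact this.eventually_lt continuousAt_const (by simp [hv, hδ])
    have e4 : ∀ᶠ u in 𝓝 v, dist u (u / (‖u‖ : ℂ)) < δ := by
      have : ContinuousAt (fun u : ℂ => dist u (u / (‖u‖ : ℂ))) v := continuousAt_id.dist hπ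
      exact this.eventually_lt continuousAt_const (by simp [hv, hδ])
    refine ((hF v hv).1 v (mem_ball_self hδ)).congr ?_
    filter_upwards [e1, e2, e3, e4] with u h1 h2 h3 h4
    have hn := norm_normalize h1
    set x := u / (‖u‖ : ℂ) with hx
    obtain ⟨t₀, rfl⟩ := exists_ee hv
    have hmem : ee t₀ ∈ ball (ee t₀) δ ∩ ball x δ := ⟨mem_ball_self hδ, h3⟩
    have hfr : ∃ᶠ z in 𝓝[≠] ee t₀, F (ee t₀) z = F x z := by
      have ht := (hasDerivAt_ee t₀).tendsto_nhdsNE (mul_ne_zero two_pi_I_ne (ee_ne_zero _))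
      refine ht.frequently (Eventually.frequently ?_)
      have := (hasDerivAt_ee t₀).continuousAt.eventually
        ((isOpen_ball.inter isOpen_ball).mem_nhds hmem)
      filter_upwards [nhdsWithin_le_nhds this] with t ht
      rw [(hF _ hv).2 t ht.1, (hF _ hn).2 t ht.2]
    exact ((hF _ hv).1.mono inter_subset_left).eqOn_of_preconnected_of_frequently_eq
      ((hF _ hn).1.mono inter_subset_right)
      ((convex_ball _ _).inter (convex_ball _ _)).isPreconnected hmem hfr ⟨h2, h4⟩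
  · have : ee t / (‖ee t‖ : ℂ) = ee t := by simp [norm_ee]
    simp only [this]
    exact (hF _ (norm_ee t)).2 t (mem_ball_self hδ)

/-- Holomorphic collar coordinates for the boundary of `Ω`. -/
structure Collar (Ω : Set ℂ) (n : ℕ) where
  Ψ : Fin n → ℂ → ℂ
  δ : ℝ
  δ_pos : 0 < δ
  δ_lt : δ < 1
  isOpen : IsOpen Ω
  conn : IsPreconnected Ω
  bdd : Bornology.IsBounded Ωᶜ
  an : ∀ k u, 1 - δ < ‖u‖ → ‖u‖ < 1 + δ → AnalyticAt ℂ (Ψ k) u
  dne : ∀ k u, 1 - δ < ‖u‖ → ‖u‖ < 1 + δ → deriv (Ψ k) u ≠ 0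
  inj : ∀ k j u v, 1 - δ < ‖u‖ → ‖u‖ < 1 + δ → 1 - δ < ‖v‖ → ‖v‖ < 1 + δ →
    Ψ k u = Ψ j v → k = j ∧ u = v
  front : ∀ a, a ∈ frontier Ω ↔ ∃ k u, ‖u‖ = 1 ∧ Ψ k u = a
  inside : ∀ k u, 1 - δ < ‖u‖ → ‖u‖ < 1 → Ψ k u ∈ Ω

lemma exists_inner_point {Ω : Set ℂ} {Ψ : ℂ → ℂ} (ha : AnalyticAt ℂ Ψ 1) (hd : deriv Ψ 1 ≠ 0)
    (h : ∀ᶠ ε : ℝ in 𝓝[>] (0 : ℝ), Ψ 1 + (ε : ℂ) * I * (deriv Ψ 1 * (2 * π * I)) ∈ Ω)
    {δ : ℝ} (hδ : 0 < δ) : ∃ u : ℂ, 1 - δ < ‖u‖ ∧ ‖u‖ < 1 ∧ Ψ u ∈ Ω := by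
  have hs := ha.hasStrictDerivAt
  set φ := hs.localInverse Ψ (deriv Ψ 1) 1 hd with hφ
  have hφ1 : φ (Ψ 1) = 1 := (hs.eventually_left_inverse hd).self_of_nhds
  have hφd : HasDerivAt φ (deriv Ψ 1)⁻¹ (Ψ 1) := (hs.to_localInverse hd).hasDerivAt
  set y : ℂ → ℂ := fun ε => Ψ 1 + ε * I * (deriv Ψ 1 * (2 * π * I)) with hy
  have hy0 : y 0 = Ψ 1 := by simp [hy]
  have hyd : HasDerivAt y (I * (deriv Ψ 1 * (2 * π * I))) 0 := by
    have := (((hasDerivAt_id (0 : ℂ)).mul_const I).mul_const (deriv Ψ 1 * (2 * π * I))).const_add (Ψ 1)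
    exact this.congr_deriv (by ring)
  have hc : HasDerivAt (fun ε => φ (y ε)) (-(2 * π)) 0 := by
    refine (hφd.comp_of_eq 0 hyd hy0.symm).congr_deriv ?_
    field_simp
    simp
  have hc' : HasDerivAt (fun ε : ℝ => φ (y ε)) (-(2 * π)) 0 := by
    have : HasDerivAt (fun ε => φ (y ε)) (-(2 * π)) ((0 : ℝ) : ℂ) := by simpa using hc
    exact this.comp_ofReal
  have h00 : φ (y ((0 : ℝ) : ℂ)) = 1 := by rw [ofReal_zero, hy0, hφ1]
  have hn := hc'.norm_sq.tendsto_slope_zero_right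
  simp only [h00, zero_add, norm_one, one_pow] at hn
  have hneg : 2 * inner ℝ (1 : ℂ) (-(2 * π) : ℂ) < 0 := by
    simp [Real.pi_pos]
  have e1 := hn.eventually (eventually_lt_nhds hneg)
  have e2 : ∀ᶠ ε : ℝ in 𝓝 0, 1 - δ < ‖φ (y ε)‖ := by
    refine continuousAt_const.eventually_lt hc'.continuousAt.norm ?_
    simp only [h00, norm_one]
    linarith
  have e3 : ∀ᶠ ε : ℝ in 𝓝 0, Ψ (φ (y ε)) = y ε := by
    have hyc : Tendsto (fun ε : ℝ => y ε) (𝓝 0) (𝓝 (Ψ 1)) := by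
      have : Continuous fun ε : ℝ => y ε := by simp only [hy]; fun_prop
      have h2 := this.tendsto 0
      rwa [ofReal_zero, hy0] at h2
    exact hyc.eventually (hs.eventually_right_inverse hd)
  obtain ⟨ε, ⟨⟨h1, h2⟩, h3, h4⟩, hε⟩ := (((e1.and h).and
    (nhdsWithin_le_nhds (e2.and e3))).and self_mem_nhdsWithin).exists
  refine ⟨φ (y ε), h3, ?_, by rw [h4]; exact h2⟩
  have hε' : 0 < ε := hε
  rw [smul_eq_mul, mul_neg_iff] at h1
  rcases h1 with ⟨_, h1⟩ | ⟨h1, _⟩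
  · have := norm_nonneg (φ (y ε))
    nlinarith
  · exact absurd h1 (not_lt.2 (inv_pos.2 hε').le)

theorem exists_collar (Ω : Set ℂ) (n : ℕ) (γ : Fin n → ℝ → ℂ)
    (hO : IsOpen Ω) (hC : IsConnected Ω) (hB : Bornology.IsBounded Ωᶜ)
    (han : ∀ k : Fin n, AnalyticOnNhd ℝ (γ k) Set.univ)
    (hper : ∀ k : Fin n, Function.Periodic (γ k) (1 : ℝ))
    (hinj : ∀ k : Fin n, Set.InjOn (γ k) (Set.Ico (0:ℝ) 1))
    (hd : ∀ k : Fin n, ∀ t : ℝ, deriv (γ k) t ≠ 0)
    (hdisj : ∀ k j : Fin n, k ≠ j → Disjoint (Set.range (γ k)) (Set.range (γ j)))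
    (hfr : frontier Ω = ⋃ k : Fin n, Set.range (γ k))
    (hleft : ∀ k : Fin n, ∀ t : ℝ, ∀ᶠ ε : ℝ in 𝓝[>] (0:ℝ),
        γ k t + ((ε : ℝ) : ℂ) * Complex.I * deriv (γ k) t ∈ Ω) :
    ∃ C : Collar Ω n, ∀ k t, C.Ψ k (ee t) = γ k t ∧
      deriv (γ k) t = deriv (C.Ψ k) (ee t) * (2 * π * I * ee t) := by
  choose Ψ hΨ hΨγ using fun k => exists_global_ext (han k) (hper k)
  have hder : ∀ k t, deriv (γ k) t = deriv (Ψ k) (ee t) * (2 * π * I * ee t) := by
    intro k t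
    have h1 : HasDerivAt (fun t => Ψ k (ee t)) (deriv (Ψ k) (ee t) * (2 * π * I * ee t)) t :=
      (hΨ k _ (norm_ee t)).differentiableAt.hasDerivAt.comp_of_eq t (hasDerivAt_ee t) rfl
    have h2 : (fun t => Ψ k (ee t)) = γ k := funext (hΨγ k)
    rw [h2] at h1
    exact h1.deriv
  have hdΨ : ∀ k v, ‖v‖ = 1 → deriv (Ψ k) v ≠ 0 := by
    intro k v hv h0
    obtain ⟨t, rfl⟩ := exists_ee hv
    exact hd k t (by rw [hder, h0, zero_mul])
  have hinj1 : InjOn (fun p : Fin n × ℂ => Ψ p.1 p.2) (univ ×ˢ sphere 0 1) := by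
    rintro ⟨k, u⟩ ⟨-, hu⟩ ⟨j, v⟩ ⟨-, hv⟩ he
    obtain ⟨s, rfl⟩ := exists_ee (v := u) (by simpa using hu)
    obtain ⟨t, rfl⟩ := exists_ee (v := v) (by simpa using hv)
    simp only [hΨγ] at he
    by_cases hkj : k = j
    · subst hkj
      have e1 : γ k (Int.fract s) = γ k s := by
        rw [← per_int (hper k) (Int.fract s) ⌊s⌋, Int.fract_add_floor]
      have e2 : γ k (Int.fract t) = γ k t := by
        rw [← per_int (hper k) (Int.fract t) ⌊t⌋, Int.fract_add_floor]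
      have h3 := hinj k ⟨Int.fract_nonneg s, Int.fract_lt_one s⟩
        ⟨Int.fract_nonneg t, Int.fract_lt_one t⟩ (by rw [e1, e2, he])
      rw [← Int.fract_add_floor s, ← Int.fract_add_floor t, ee_add_int, ee_add_int, h3]
    · exact absurd (mem_range_self t) (disjoint_left.1 (hdisj k j hkj) ⟨s, he⟩)
  obtain ⟨T, hT, hTinj⟩ := hinj1.exists_mem_nhdsSet (isCompact_univ.prod (isCompact_sphere 0 1))
    (by
      rintro ⟨k, u⟩ ⟨-, hu⟩
      have h1 : ContinuousAt (fun p : Fin n × ℂ => Ψ k p.2) (k, u) :=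
        ContinuousAt.comp (f := Prod.snd) (hΨ k u (by simpa using hu)).continuousAt continuousAt_snd
      refine h1.congr ?_
      have : ∀ᶠ p : Fin n × ℂ in 𝓝 (k, u), p.1 = k :=
        (continuous_fst.tendsto (k, u)).eventually (p := fun j => j = k) (by simp)
      filter_upwards [this] with p hp
      rw [hp])
    (by
      rintro ⟨k, u⟩ ⟨-, hu⟩
      have hu' : ‖u‖ = 1 := by simpa using hu
      have hs := (hΨ k u hu').hasStrictDerivAt
      have h1 := hs.eventually_left_inverse (hdΨ k u hu')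
      refine ⟨{k} ×ˢ {x | hs.localInverse (Ψ k) _ u (hdΨ k u hu') (Ψ k x) = x},
        prod_mem_nhds (by simp) h1, ?_⟩
      rintro ⟨a, x⟩ ⟨ha, hx⟩ ⟨b, y⟩ ⟨hb, hy⟩ he
      simp only [mem_singleton_iff] at ha hb
      subst ha hb
      simp only [mem_ofPred_eq] at hx hy he
      rw [← hx, ← hy, he])
  have hO' : ∀ v ∈ sphere (0 : ℂ) 1, ∀ᶠ u in 𝓝 v,
      ∀ k, (k, u) ∈ T ∧ AnalyticAt ℂ (Ψ k) u ∧ deriv (Ψ k) u ≠ 0 := by
    intro v hv
    have hv' : ‖v‖ = 1 := by simpa using hv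
    rw [eventually_all]
    intro k
    have h1 : T ∈ 𝓝 (k, v) := mem_nhdsSet_iff_forall.1 hT _ ⟨mem_univ _, hv⟩
    have h2 : ∀ᶠ u in 𝓝 v, (k, u) ∈ T :=
      (Continuous.prodMk_right k).continuousAt.eventually h1
    exact h2.and ((hΨ k v hv').eventually_analyticAt.and
      ((hΨ k v hv').deriv.continuousAt.eventually_ne (hdΨ k v hv')))
  obtain ⟨δ₀, hδ₀, hth⟩ := (isCompact_sphere (0 : ℂ) 1).exists_thickening_subset_open
    (t := interior {u | ∀ k, (k, u) ∈ T ∧ AnalyticAt ℂ (Ψ k) u ∧ deriv (Ψ k) u ≠ 0})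
    isOpen_interior fun v hv => mem_interior_iff_mem_nhds.2 (hO' v hv)
  set δ := min δ₀ (1 / 2) with hδ
  have hδpos : 0 < δ := lt_min hδ₀ (by norm_num)
  have hδ1 : δ ≤ 1 / 2 := min_le_right _ _
  have hδ2 : δ ≤ δ₀ := min_le_left _ _
  have hgood : ∀ u : ℂ, 1 - δ < ‖u‖ → ‖u‖ < 1 + δ →
      ∀ k, (k, u) ∈ T ∧ AnalyticAt ℂ (Ψ k) u ∧ deriv (Ψ k) u ≠ 0 := by
    intro u h1 h2
    have hu : u ≠ 0 := norm_pos_iff.1 (by linarith)
    refine interior_subset (hth (mem_thickening_iff.2 ⟨u / (‖u‖ : ℂ), ?_, ?_⟩))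
    · simpa using norm_normalize hu
    · rw [dist_normalize hu, abs_lt]
      constructor <;> linarith
  have hI : ∀ k j u v, 1 - δ < ‖u‖ → ‖u‖ < 1 + δ → 1 - δ < ‖v‖ → ‖v‖ < 1 + δ →
      Ψ k u = Ψ j v → k = j ∧ u = v := fun k j u v h1 h2 h3 h4 he =>
    Prod.ext_iff.1 (hTinj (hgood u h1 h2 k).1 (hgood v h3 h4 j).1 he)
  have hF : ∀ a, a ∈ frontier Ω ↔ ∃ k u, ‖u‖ = 1 ∧ Ψ k u = a := by
    intro a
    rw [hfr, mem_iUnion]
    constructor
    · rintro ⟨k, t, rfl⟩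
      exact ⟨k, ee t, norm_ee t, hΨγ k t⟩
    · rintro ⟨k, u, hu, rfl⟩
      obtain ⟨t, rfl⟩ := exists_ee hu
      exact ⟨k, t, (hΨγ k t).symm⟩
  refine ⟨⟨Ψ, δ, hδpos, by linarith, hO, hC.2, hB, fun k u h1 h2 => (hgood u h1 h2 k).2.1,
    fun k u h1 h2 => (hgood u h1 h2 k).2.2, hI, hF, ?_⟩, fun k t => ⟨hΨγ k t, hder k t⟩⟩
  intro k u h1 h2
  have hpc : IsPreconnected (Ψ k '' {u : ℂ | 1 - δ < ‖u‖ ∧ ‖u‖ < 1}) :=
    (isPreconnected_annulus _ _ (by linarith)).image _ fun u hu =>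
      (hgood u hu.1 (by linarith [hu.2]) k).2.1.continuousAt.continuousWithinAt
  have hsub : Ψ k '' {u : ℂ | 1 - δ < ‖u‖ ∧ ‖u‖ < 1} ⊆ Ω ∪ (closure Ω)ᶜ := by
    rintro _ ⟨x, hx, rfl⟩
    by_contra hcon
    simp only [mem_union, mem_compl_iff, not_or, not_not] at hcon
    have : Ψ k x ∈ frontier Ω := ⟨hcon.2, by rw [hO.interior_eq]; exact hcon.1⟩
    obtain ⟨j, v, hv, he⟩ := (hF _).1 this
    have := (hI j k v x (by linarith) (by linarith) hx.1 (by linarith [hx.2]) he).2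
    subst this
    exact absurd hv hx.2.ne
  have hee : ee 0 = 1 := by simp [ee]
  rcases hpc.subset_or_subset hO isClosed_closure.isOpen_compl
    (disjoint_compl_right.mono_left subset_closure) hsub with h | h
  · exact h ⟨u, ⟨h1, h2⟩, rfl⟩
  · have hl := hleft k 0
    rw [hder, ← hΨγ, hee, mul_one] at hl
    obtain ⟨x, hx1, hx2, hx3⟩ := exists_inner_point (hΨ k 1 norm_one) (hdΨ k 1 norm_one) hl hδpos
    exact absurd (subset_closure hx3) (h ⟨x, ⟨hx1, hx2⟩, rfl⟩)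

end Pool.Agent.MP_476a06_an

end

section

/-! Cauchy type integrals, the index of the level curves of a collar, and the rotation index. -/

set_option autoImplicit false

open Complex Metric Set Filter Topology MeasureTheory
open scoped Real Interval

namespace Pool.Agent.MP_476a06_an

lemma differentiableAt_cauchy_interval {p q : ℝ → ℂ} (hp : Continuous p) (hq : Continuous q)
    {a₀ : ℂ} (h0 : ∀ t, p t ≠ a₀) :
    DifferentiableAt ℂ (fun a => ∫ t in (0 : ℝ)..2 * π, q t / (p t - a)) a₀ := by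
  obtain ⟨t₀, -, ht₀⟩ := (isCompact_uIcc (a := (0 : ℝ)) (b := 2 * π)).exists_isMinOn
    nonempty_uIcc (f := fun t => ‖p t - a₀‖) (by fun_prop)
  set ε := ‖p t₀ - a₀‖ with hε
  have hεpos : 0 < ε := norm_pos_iff.2 (sub_ne_zero.2 (h0 t₀))
  have hlow : ∀ t ∈ Ι (0 : ℝ) (2 * π), ∀ a ∈ ball a₀ (ε / 2), ε / 2 ≤ ‖p t - a‖ := by
    intro t ht a ha
    have h1 : ε ≤ ‖p t - a₀‖ := ht₀ (uIoc_subset_uIcc ht)
    have h2 : ‖a - a₀‖ < ε / 2 := by simpa [dist_eq_norm] using ha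
    have h3 : ‖p t - a₀‖ ≤ ‖p t - a‖ + ‖a - a₀‖ := by
      simpa using norm_add_le (p t - a) (a - a₀)
    linarith
  refine (intervalIntegral.hasDerivAt_integral_of_dominated_loc_of_deriv_le
    (F := fun a t => q t / (p t - a)) (F' := fun a t => q t / (p t - a) ^ 2)
    (bound := fun t => ‖q t‖ / (ε / 2) ^ 2) (ball_mem_nhds a₀ (half_pos hεpos)) ?_ ?_ ?_ ?_ ?_ ?_).2.differentiableAt
  · exact Eventually.of_forall fun a =>
      (hq.measurable.div (hp.measurable.sub_const a)).aestronglyMeasurable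
  · exact (hq.div (hp.sub continuous_const) fun t => sub_ne_zero.2 (h0 t)).intervalIntegrable _ _
  · exact (hq.measurable.div ((hp.measurable.sub_const a₀).pow_const 2)).aestronglyMeasurable
  · refine Eventually.of_forall fun t ht a ha => ?_
    rw [norm_div, norm_pow]
    have := hlow t ht a ha
    gcongr
  · exact (Continuous.intervalIntegrable (by fun_prop) _ _)
  · refine Eventually.of_forall fun t ht a ha => ?_
    have h1 : p t - a ≠ 0 := norm_pos_iff.1 ((half_pos hεpos).trans_le (hlow t ht a ha))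
    have h2 := (hasDerivAt_const a (q t)).fun_div ((hasDerivAt_id' a).const_sub (p t)) h1
    refine h2.congr_deriv ?_
    ring

/-- A Cauchy type integral along the image of a circle. -/
noncomputable def CI (P F : ℂ → ℂ) (ρ : ℝ) (a : ℂ) : ℂ := ∮ u in C(0, ρ), F u / (P u - a)

lemma differentiableAt_CI {P F : ℂ → ℂ} {ρ : ℝ} (hρ : 0 ≤ ρ)
    (hP : ∀ u ∈ sphere (0 : ℂ) ρ, ContinuousAt P u) (hF : ∀ u ∈ sphere (0 : ℂ) ρ, ContinuousAt F u)
    {a : ℂ} (ha : ∀ u ∈ sphere (0 : ℂ) ρ, P u ≠ a) : DifferentiableAt ℂ (CI P F ρ) a := by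
  have h := differentiableAt_cauchy_interval (circle_continuous hρ hP)
    (q := fun t => circleMap 0 ρ t * I * F (circleMap 0 ρ t))
    ((by fun_prop : Continuous fun t => circleMap 0 ρ t * I).mul (circle_continuous hρ hF))
    (a₀ := a) fun t => ha _ (circleMap_mem_sphere 0 hρ t)
  have he : CI P F ρ = fun a => ∫ t in (0 : ℝ)..2 * π,
      circleMap 0 ρ t * I * F (circleMap 0 ρ t) / (P (circleMap 0 ρ t) - a) := by
    ext a
    simp only [CI, circleIntegral, deriv_circleMap, smul_eq_mul, mul_div_assoc]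
  rwa [he]

lemma CI_bound {P F : ℂ → ℂ} {ρ : ℝ} (hρ : 0 ≤ ρ)
    (hP : ∀ u ∈ sphere (0 : ℂ) ρ, ContinuousAt P u) (hF : ∀ u ∈ sphere (0 : ℂ) ρ, ContinuousAt F u) :
    ∃ M : ℝ, ∀ᶠ a in cocompact ℂ, ‖CI P F ρ a‖ ≤ M / ‖a‖ := by
  obtain ⟨B, hB⟩ := (isCompact_sphere (0 : ℂ) ρ).exists_bound_of_continuousOn
    (f := P) fun u hu => (hP u hu).continuousWithinAt
  obtain ⟨D, hD⟩ := (isCompact_sphere (0 : ℂ) ρ).exists_bound_of_continuousOn
    (f := F) fun u hu => (hF u hu).continuousWithinAt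
  refine ⟨2 * π * ρ * (2 * D), ?_⟩
  have h1 : ∀ᶠ a in cocompact ℂ, 2 * |B| + 1 ≤ ‖a‖ :=
    (tendsto_norm_cocompact_atTop (E := ℂ)).eventually (eventually_ge_atTop _)
  filter_upwards [h1] with a ha
  have hB0 := abs_nonneg B
  have hB1 := le_abs_self B
  have hpos : 0 < ‖a‖ := by linarith
  rw [mul_div_assoc]
  refine circleIntegral.norm_integral_le_of_norm_le_const hρ fun u hu => ?_
  have h2 : ‖a‖ / 2 ≤ ‖P u - a‖ := by
    have := norm_sub_norm_le a (P u)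
    rw [norm_sub_rev] at this
    linarith [hB u hu]
  have h3 : 0 ≤ D := (norm_nonneg _).trans (hD u hu)
  rw [norm_div]
  calc ‖F u‖ / ‖P u - a‖ ≤ D / (‖a‖ / 2) := by
        have := hD u hu
        gcongr
    _ = 2 * D / ‖a‖ := by field_simp

lemma tendsto_of_bound {f : ℂ → ℂ} {M : ℝ} (h : ∀ᶠ a in cocompact ℂ, ‖f a‖ ≤ M / ‖a‖) :
    Tendsto f (cocompact ℂ) (𝓝 0) :=
  squeeze_zero_norm' h (tendsto_const_nhds.div_atTop (tendsto_norm_cocompact_atTop (E := ℂ)))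

lemma wn_eq_of_lift {h : ℂ → ℂ} {ρ : ℝ} (hρ : 0 ≤ ρ) (hg : Good h ρ) {l : ℝ → ℂ} (hl : Continuous l)
    (he : ∀ t, exp (l t) = h (circleMap 0 ρ t)) : wn h ρ = (2 * π * I)⁻¹ * (l (2 * π) - l 0) := by
  rw [wn_eq_interval, integral_logDeriv_eq_of_lift (circle_hasDerivAt hρ fun u hu => (hg u hu).1)
    ((circle_continuous hρ fun u hu => (hg u hu).1.deriv.continuousAt).mul (by fun_prop)) hl he]

lemma wn_const_mul {h : ℂ → ℂ} {ρ : ℝ} (hρ : 0 ≤ ρ) (hg : Good h ρ) {c : ℂ} (hc : c ≠ 0) :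
    Good (fun u => c * h u) ρ ∧ wn (fun u => c * h u) ρ = wn h ρ := by
  have h1 : Good (fun _ => c) ρ := fun u _ => ⟨analyticAt_const, hc⟩
  exact ⟨h1.mul hg, by rw [wn_mul hρ h1 hg, wn_const, zero_add]⟩

namespace Collar

variable {Ω : Set ℂ} {n : ℕ} (C : Collar Ω n)

/-- The index of the point `a` with respect to the level curve number `k` at level `ρ`. -/
noncomputable def ind (k : Fin n) (ρ : ℝ) (a : ℂ) : ℂ := wn (fun u => C.Ψ k u - a) ρ

/-- The total index. -/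
noncomputable def tot (ρ : ℝ) (a : ℂ) : ℂ := ∑ k, C.ind k ρ a

variable {C}

lemma pos_of {ρ : ℝ} (h : 1 - C.δ < ρ) : 0 < ρ := by linarith [C.δ_lt]

lemma an_sphere (k : Fin n) {ρ : ℝ} (h1 : 1 - C.δ < ρ) (h2 : ρ < 1 + C.δ) :
    ∀ u ∈ sphere (0 : ℂ) ρ, AnalyticAt ℂ (C.Ψ k) u := fun u hu => by
  have : ‖u‖ = ρ := by simpa using hu
  exact C.an k u (this ▸ h1) (this ▸ h2)

lemma ind_eq_CI (k : Fin n) (ρ : ℝ) :
    C.ind k ρ = fun a => (2 * π * I)⁻¹ * CI (C.Ψ k) (deriv (C.Ψ k)) ρ a := by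
  ext a
  simp only [ind, wn, CI, deriv_sub_const]

lemma good_ind (k : Fin n) {ρ : ℝ} (h1 : 1 - C.δ < ρ) (h2 : ρ < 1 + C.δ) {a : ℂ}
    (ha : ∀ u, ‖u‖ = ρ → C.Ψ k u ≠ a) : Good (fun u => C.Ψ k u - a) ρ := fun u hu =>
  ⟨(an_sphere k h1 h2 u hu).sub analyticAt_const, sub_ne_zero.2 (ha u (by simpa using hu))⟩

lemma ind_differentiableAt (k : Fin n) {ρ : ℝ} (h1 : 1 - C.δ < ρ) (h2 : ρ < 1 + C.δ) {a : ℂ}
    (ha : ∀ u, ‖u‖ = ρ → C.Ψ k u ≠ a) : DifferentiableAt ℂ (C.ind k ρ) a := by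
  rw [ind_eq_CI]
  exact (differentiableAt_CI (pos_of h1).le (fun u hu => (an_sphere k h1 h2 u hu).continuousAt)
    (fun u hu => (an_sphere k h1 h2 u hu).deriv.continuousAt)
    fun u hu => ha u (by simpa using hu)).const_mul _

lemma ind_const (k : Fin n) {ρ : ℝ} (h1 : 1 - C.δ < ρ) (h2 : ρ < 1 + C.δ) {s : Set ℂ}
    (hs : IsPreconnected s) (ha : ∀ a ∈ s, ∀ u, ‖u‖ = ρ → C.Ψ k u ≠ a) {a b : ℂ}
    (has : a ∈ s) (hbs : b ∈ s) : C.ind k ρ a = C.ind k ρ b :=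
  int_const hs (fun x hx => (ind_differentiableAt k h1 h2 (ha x hx)).continuousAt.continuousWithinAt)
    (fun x hx => (good_ind k h1 h2 (ha x hx)).exists_int (pos_of h1).le) has hbs

lemma ind_tendsto (k : Fin n) {ρ : ℝ} (h1 : 1 - C.δ < ρ) (h2 : ρ < 1 + C.δ) :
    Tendsto (C.ind k ρ) (cocompact ℂ) (𝓝 0) := by
  obtain ⟨M, hM⟩ := CI_bound (pos_of h1).le (fun u hu => (an_sphere k h1 h2 u hu).continuousAt)
    (fun u hu => (an_sphere k h1 h2 u hu).deriv.continuousAt)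
  rw [ind_eq_CI]
  simpa using (tendsto_of_bound hM).const_mul (2 * π * I)⁻¹

include C in
lemma eventually_mem : ∀ᶠ a in cocompact ℂ, a ∈ Ω := by
  have := C.bdd
  rwa [Bornology.isBounded_def, compl_compl, Metric.cobounded_eq_cocompact] at this

lemma not_mem_of_norm_one (k : Fin n) {u : ℂ} (hu : ‖u‖ = 1) : C.Ψ k u ∉ Ω := fun h => by
  have := (C.front _).2 ⟨k, u, hu, rfl⟩
  exact this.2 (by rwa [C.isOpen.interior_eq])

lemma mem_closure_of (k : Fin n) {u : ℂ} (h1 : 1 - C.δ < ‖u‖) (hu : ‖u‖ ≤ 1) :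
    C.Ψ k u ∈ closure Ω := by
  rcases hu.lt_or_eq with h | h
  · exact subset_closure (C.inside k u h1 h)
  · exact frontier_subset_closure ((C.front _).2 ⟨k, u, h, rfl⟩)

lemma ind_one (k : Fin n) {a : ℂ} (ha : a ∈ Ω) : C.ind k 1 a = 0 := by
  have h1 : 1 - C.δ < 1 := by linarith [C.δ_pos]
  have h2 : 1 < 1 + C.δ := by linarith [C.δ_pos]
  have h3 : ∀ᶠ b in cocompact ℂ, C.ind k 1 b = C.ind k 1 a :=
    C.eventually_mem.mono fun b hb => ind_const k h1 h2 C.conn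
      (fun x hx u hu he => not_mem_of_norm_one k hu (he ▸ hx)) hb ha
  exact tendsto_nhds_unique (tendsto_const_nhds.congr' (EventuallyEq.symm h3)) (ind_tendsto k h1 h2)

lemma ind_shift (k : Fin n) {r R : ℝ} (h1 : 1 - C.δ < r) (hle : r ≤ R) (h2 : R < 1 + C.δ) {a : ℂ}
    (ha : ∀ u, r ≤ ‖u‖ → ‖u‖ ≤ R → C.Ψ k u ≠ a) : C.ind k R a = C.ind k r a :=
  wn_annulus (pos_of h1) hle fun u e1 e2 =>
    ⟨(C.an k u (h1.trans_le e1) (e2.trans_lt h2)).sub analyticAt_const, sub_ne_zero.2 (ha u e1 e2)⟩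

lemma differentiableOn_Ψ (k : Fin n) :
    DifferentiableOn ℂ (C.Ψ k) {u : ℂ | 1 - C.δ < ‖u‖ ∧ ‖u‖ < 1 + C.δ} :=
  fun u hu => (C.an k u hu.1 hu.2).differentiableAt.differentiableWithinAt

lemma ind_inner (k : Fin n) {ρ : ℝ} {v : ℂ} (h1 : 1 - C.δ < ρ) (h2 : ρ < ‖v‖) (h3 : ‖v‖ < 1) :
    C.ind k ρ (C.Ψ k v) = -1 := by
  have hδ := C.δ_pos
  have hv1 : 1 - C.δ < ‖v‖ := h1.trans h2
  have hv2 : ‖v‖ < 1 + C.δ := by linarith
  have hD : ∀ u : ℂ, 1 - C.δ < ‖u‖ → ‖u‖ < 1 + C.δ →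
      AnalyticAt ℂ (dslope (C.Ψ k) v) u ∧ dslope (C.Ψ k) v u ≠ 0 := by
    intro u e1 e2
    refine ⟨((differentiableOn_dslope ((isOpen_annulus _ _).mem_nhds ⟨hv1, hv2⟩)).2
      (differentiableOn_Ψ k)).analyticAt ((isOpen_annulus _ _).mem_nhds ⟨e1, e2⟩), ?_⟩
    by_cases huv : u = v
    · rw [huv, dslope_same]
      exact C.dne k v hv1 hv2
    · intro h0
      have := sub_smul_dslope (C.Ψ k) v u
      rw [h0, smul_zero, eq_comm, sub_eq_zero] at this
      exact huv (C.inj k k u v e1 e2 hv1 hv2 this).2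
  have hfac : (fun u => C.Ψ k u - C.Ψ k v) = fun u => (u - v) * dslope (C.Ψ k) v u := by
    ext u
    rw [← smul_eq_mul, sub_smul_dslope]
  have hG : ∀ r : ℝ, 1 - C.δ < r → r < 1 + C.δ → Good (dslope (C.Ψ k) v) r := fun r e1 e2 u hu => by
    have : ‖u‖ = r := by simpa using hu
    exact hD u (this ▸ e1) (this ▸ e2)
  have e1 := ind_one (C := C) k (C.inside k v hv1 h3)
  have hρ := pos_of h1
  rw [ind, hfac, wn_mul zero_le_one (good_sub h3.ne) (hG 1 (by linarith) (by linarith)),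
    wn_sub_in h3, wn_annulus hρ (by linarith : ρ ≤ 1)
      fun u e1 e2 => hD u (h1.trans_le e1) (by linarith)] at e1
  rw [ind, hfac, wn_mul hρ.le (good_sub h2.ne') (hG ρ h1 (by linarith)), wn_sub_out hρ.le h2]
  linear_combination e1

lemma exists_mid {ρ : ℝ} (h0 : 0 < ρ) (h2 : ρ < 1) : ∃ v : ℂ, ρ < ‖v‖ ∧ ‖v‖ < 1 := by
  refine ⟨((ρ + 1) / 2 : ℝ), ?_⟩
  rw [norm_real, Real.norm_eq_abs, abs_of_pos (by linarith)]
  constructor <;> linarith

lemma ind_outer (j k : Fin n) {ρ : ℝ} {v : ℂ} (h1 : 1 - C.δ < ρ) (h2 : ρ < 1) (h3 : ρ < ‖v‖)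
    (h4 : ‖v‖ < 1 + C.δ) : C.ind j ρ (C.Ψ k v) = if j = k then -1 else 0 := by
  have hδ := C.δ_pos
  obtain ⟨x, hx1, hx2⟩ := exists_mid (pos_of h1) h2
  have hs : IsPreconnected (C.Ψ k '' {u : ℂ | ρ < ‖u‖ ∧ ‖u‖ < 1 + C.δ}) :=
    (isPreconnected_annulus _ _ (pos_of h1).le).image _ fun u hu =>
      (C.an k u (h1.trans hu.1) hu.2).continuousAt.continuousWithinAt
  rw [ind_const j h1 (by linarith) hs ?_ ⟨v, ⟨h3, h4⟩, rfl⟩ ⟨x, ⟨hx1, by linarith⟩, rfl⟩]
  · split_ifs with hjk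
    · subst hjk
      exact ind_inner j h1 hx1 hx2
    · rw [← ind_shift j h1 h2.le (by linarith), ind_one j (C.inside k x (by linarith) hx2)]
      intro u e1 e2 he
      exact hjk (C.inj j k u x (by linarith) (by linarith) (by linarith) (by linarith) he).1
  · rintro _ ⟨y, hy, rfl⟩ u hu he
    have := (C.inj j k u y (by linarith) (by linarith) (by linarith [hy.1]) hy.2 he).2
    subst this
    exact absurd hu hy.1.ne'

lemma tot_outer (k : Fin n) {ρ : ℝ} {v : ℂ} (h1 : 1 - C.δ < ρ) (h2 : ρ < 1) (h3 : ρ < ‖v‖)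
    (h4 : ‖v‖ < 1 + C.δ) : C.tot ρ (C.Ψ k v) = -1 := by
  simp [tot, ind_outer _ k h1 h2 h3 h4]

lemma tot_differentiableAt {ρ : ℝ} (h1 : 1 - C.δ < ρ) (h2 : ρ < 1 + C.δ) {a : ℂ}
    (ha : ∀ k u, ‖u‖ = ρ → C.Ψ k u ≠ a) : DifferentiableAt ℂ (C.tot ρ) a := by
  unfold tot
  exact DifferentiableAt.fun_sum fun k _ => ind_differentiableAt k h1 h2 (ha k)

lemma tot_int {ρ : ℝ} (h1 : 1 - C.δ < ρ) (h2 : ρ < 1 + C.δ) {a : ℂ}
    (ha : ∀ k u, ‖u‖ = ρ → C.Ψ k u ≠ a) : ∃ m : ℤ, C.tot ρ a = m := by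
  choose m hm using fun k => (good_ind k h1 h2 (ha k)).exists_int (pos_of h1).le
  exact ⟨∑ k, m k, by simp [tot, ind, hm]⟩

lemma tot_tendsto {ρ : ℝ} (h1 : 1 - C.δ < ρ) (h2 : ρ < 1 + C.δ) :
    Tendsto (C.tot ρ) (cocompact ℂ) (𝓝 0) := by
  have := tendsto_finsetSum Finset.univ fun k _ => ind_tendsto (C := C) k h1 h2
  rw [Finset.sum_const_zero] at this
  exact this

lemma off_of_not_mem {ρ : ℝ} (h1 : 1 - C.δ < ρ) (h2 : ρ < 1) {a : ℂ} (ha : a ∉ Ω) :
    ∀ k u, ‖u‖ = ρ → C.Ψ k u ≠ a := fun k u hu he =>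
  ha (he ▸ C.inside k u (hu ▸ h1) (hu ▸ h2))

lemma tot_compl {ρ : ℝ} (h1 : 1 - C.δ < ρ) (h2 : ρ < 1) {a : ℂ} (ha : a ∉ Ω) : C.tot ρ a = -1 := by
  have hδ := C.δ_pos
  have h2' : ρ < 1 + C.δ := by linarith
  have hcont : ∀ x ∉ Ω, ContinuousAt (C.tot ρ) x := fun x hx =>
    (tot_differentiableAt h1 h2' (off_of_not_mem h1 h2 hx)).continuousAt
  have hE : IsClopen {x | x ∉ Ω ∧ C.tot ρ x ≠ -1} := by
    constructor
    · have : {x | x ∉ Ω ∧ C.tot ρ x ≠ -1} = Ωᶜ ∩ C.tot ρ ⁻¹' {z | 1 ≤ ‖z + 1‖} := by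
        ext x
        simp only [mem_ofPred_eq, mem_inter_iff, mem_compl_iff, mem_preimage, and_congr_right_iff]
        intro hx
        obtain ⟨m, hm⟩ := tot_int h1 h2' (off_of_not_mem h1 h2 hx)
        rw [hm]
        constructor
        · intro h
          have h' : m + 1 ≠ 0 := fun e => h (by
            have : m = -1 := by omega
            simp [this])
          have : ((m : ℂ) + 1) = ((m + 1 : ℤ) : ℂ) := by push_cast; ring
          rw [this, Complex.norm_intCast]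
          exact_mod_cast Int.one_le_abs h'
        · intro h e
          rw [e] at h
          norm_num at h
      rw [this]
      exact ContinuousOn.preimage_isClosed_of_isClosed
        (fun x hx => (hcont x hx).continuousWithinAt) C.isOpen.isClosed_compl
        (isClosed_le continuous_const (by fun_prop))
    · rw [isOpen_iff_mem_nhds]
      rintro x ⟨hx1, hx2⟩
      have hx3 : x ∉ closure Ω := by
        intro hcl
        obtain ⟨k, v, hv, rfl⟩ := (C.front x).1 ⟨hcl, by rwa [C.isOpen.interior_eq]⟩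
        exact hx2 (tot_outer k h1 h2 (by linarith) (by linarith))
      filter_upwards [isClosed_closure.isOpen_compl.mem_nhds hx3, (hcont x hx1).eventually_ne hx2]
        with y hy1 hy2
      exact ⟨fun h => hy1 (subset_closure h), hy2⟩
  rcases isClopen_iff.1 hE with h | h
  · by_contra hne
    exact (h ▸ (show a ∈ {x | x ∉ Ω ∧ C.tot ρ x ≠ -1} from ⟨ha, hne⟩) : a ∈ (∅ : Set ℂ))
  · obtain ⟨x, hx⟩ := C.eventually_mem.exists
    exact absurd hx (h ▸ mem_univ x : x ∈ {x | x ∉ Ω ∧ C.tot ρ x ≠ -1}).1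

lemma ind_zero (k : Fin n) {ρ : ℝ} (h1 : 1 - C.δ < ρ) (h2 : ρ ≤ 1) {a : ℂ} (ha : a ∈ Ω)
    (h : ∀ u, ρ ≤ ‖u‖ → ‖u‖ ≤ 1 → C.Ψ k u ≠ a) : C.ind k ρ a = 0 := by
  rw [← ind_shift k h1 h2 (by linarith [C.δ_pos]) h, ind_one k ha]

lemma tot_cases {ρ : ℝ} (h1 : 1 - C.δ < ρ) (h2 : ρ < 1) {a : ℂ}
    (ha : ∀ k u, ‖u‖ = ρ → C.Ψ k u ≠ a) : C.tot ρ a = -1 ∨ C.tot ρ a = 0 := by
  by_cases hΩ : a ∈ Ω
  · by_cases hex : ∃ k v, ρ < ‖v‖ ∧ ‖v‖ < 1 ∧ C.Ψ k v = a
    · obtain ⟨k, v, e1, e2, rfl⟩ := hex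
      exact Or.inl (tot_outer k h1 h2 e1 (by linarith [C.δ_pos]))
    · refine Or.inr (Finset.sum_eq_zero fun k _ => ind_zero k h1 h2.le hΩ fun u e1 e2 he => ?_)
      rcases e1.lt_or_eq with e1 | e1
      · rcases e2.lt_or_eq with e2 | e2
        · exact hex ⟨k, u, e1, e2, he⟩
        · exact not_mem_of_norm_one k e2 (he ▸ hΩ)
      · exact ha k u e1.symm he
  · exact Or.inl (tot_compl h1 h2 hΩ)

lemma eventually_off {a : ℂ} (ha : a ∈ Ω) :
    ∀ᶠ ρ in 𝓝[<] (1 : ℝ), ∀ k u, ρ ≤ ‖u‖ → ‖u‖ ≤ 1 → C.Ψ k u ≠ a := by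
  have hδ := C.δ_pos
  have h0 : ∀ᶠ ρ in 𝓝[<] (1 : ℝ), 1 - C.δ < ρ :=
    nhdsWithin_le_nhds (eventually_gt_nhds (by linarith))
  by_cases hex : ∃ k v, 1 - C.δ < ‖v‖ ∧ ‖v‖ ≤ 1 ∧ C.Ψ k v = a
  · obtain ⟨k, v, e1, e2, rfl⟩ := hex
    have e3 : ‖v‖ < 1 := lt_of_le_of_ne e2 fun e => not_mem_of_norm_one k e ha
    have h3 : ∀ᶠ ρ in 𝓝[<] (1 : ℝ), ‖v‖ < ρ := nhdsWithin_le_nhds (eventually_gt_nhds e3)
    filter_upwards [h0, h3] with ρ g1 g2 j u g3 g4 he
    have := (C.inj j k u v (by linarith) (by linarith) e1 (by linarith) he).2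
    subst this
    linarith
  · filter_upwards [h0] with ρ g1 j u g3 g4 he
    exact hex ⟨j, u, by linarith, g4, he⟩

lemma good_tangent (k : Fin n) {ρ : ℝ} (h1 : 1 - C.δ < ρ) (h2 : ρ < 1 + C.δ) :
    Good (fun u => u * deriv (C.Ψ k) u) ρ := fun u hu => by
  have e : ‖u‖ = ρ := by simpa using hu
  exact ⟨analyticAt_id.mul (an_sphere k h1 h2 u hu).deriv,
    mul_ne_zero (norm_pos_iff.1 (e ▸ pos_of h1)) (C.dne k u (e ▸ h1) (e ▸ h2))⟩

lemma exists_close (k : Fin n) : ∃ r : ℝ, 1 - C.δ < r ∧ r < 1 ∧ ∀ u : ℂ, ‖u‖ = 1 →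
    ‖(C.Ψ k (r * u) - C.Ψ k u) - (r - 1) * (u * deriv (C.Ψ k) u)‖ <
      ‖(r - 1) * (u * deriv (C.Ψ k) u)‖ := by
  have hδ := C.δ_pos
  have hδ' := C.δ_lt
  obtain ⟨u₀, hu₀, hmin⟩ := (isCompact_sphere (0 : ℂ) 1).exists_isMinOn ⟨1, by simp⟩
    (f := fun u => ‖deriv (C.Ψ k) u‖) fun u hu =>
      (an_sphere k (by linarith) (by linarith) u hu).deriv.continuousAt.norm.continuousWithinAt
  have hu₀' : ‖u₀‖ = 1 := by simpa using hu₀
  set m := ‖deriv (C.Ψ k) u₀‖ with hm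
  have hmpos : 0 < m := norm_pos_iff.2 (C.dne k u₀ (by linarith) (by linarith))
  have huc := (isCompact_annulus (1 - C.δ / 2) 1).uniformContinuousOn_of_continuous
    (f := deriv (C.Ψ k)) fun u hu =>
      (C.an k u (by linarith [hu.1]) (by linarith [hu.2])).deriv.continuousAt.continuousWithinAt
  obtain ⟨η, hη, hη'⟩ := Metric.uniformContinuousOn_iff.1 huc (m / 2) (half_pos hmpos)
  set r := max (1 - C.δ / 2) (1 - η / 2) with hr
  have hr1 : 1 - C.δ / 2 ≤ r := le_max_left _ _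
  have hr2 : 1 - η / 2 ≤ r := le_max_right _ _
  have hr3 : r < 1 := max_lt (by linarith) (by linarith)
  refine ⟨r, by linarith, hr3, fun u hu => ?_⟩
  have hn : ∀ c ∈ Icc r 1, ‖(c : ℂ) * u‖ = c := fun c hc => by
    rw [norm_mul, hu, mul_one, norm_real, Real.norm_eq_abs, abs_of_pos (by linarith [hc.1])]
  have hder : ∀ c ∈ Icc r 1, HasDerivWithinAt
      (fun c : ℝ => C.Ψ k (c * u) - c * (u * deriv (C.Ψ k) u))
      (deriv (C.Ψ k) (c * u) * u - u * deriv (C.Ψ k) u) (Icc r 1) c := by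
    intro c hc
    have e1 : HasDerivAt (fun z : ℂ => C.Ψ k (z * u) - z * (u * deriv (C.Ψ k) u))
        (deriv (C.Ψ k) (c * u) * u - u * deriv (C.Ψ k) u) (c : ℂ) := by
      have a1 := (C.an k (c * u) (by rw [hn c hc]; linarith [hc.1])
        (by rw [hn c hc]; linarith [hc.2])).differentiableAt.hasDerivAt
      have a2 := a1.comp_of_eq (c : ℂ) ((hasDerivAt_id' (c : ℂ)).mul_const u) rfl
      exact (a2.sub ((hasDerivAt_id' (c : ℂ)).mul_const (u * deriv (C.Ψ k) u))).congr_deriv (by ring)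
    exact e1.comp_ofReal.hasDerivWithinAt
  have hb := norm_image_sub_le_of_norm_deriv_le_segment' (C := m / 2) hder (fun c hc => by
    have hc' : c ∈ Icc r 1 := Ico_subset_Icc_self hc
    have e1 : deriv (C.Ψ k) (c * u) * u - u * deriv (C.Ψ k) u =
      (deriv (C.Ψ k) (c * u) - deriv (C.Ψ k) u) * u := by ring
    rw [e1, norm_mul, hu, mul_one, ← dist_eq_norm]
    refine (hη' _ ⟨by rw [hn c hc']; linarith [hc.1], by rw [hn c hc']; exact hc'.2⟩ _
      ⟨by linarith, hu.le⟩ ?_).le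
    have e2 : (c : ℂ) * u - u = ((c - 1 : ℝ) : ℂ) * u := by push_cast; ring
    rw [dist_eq_norm, e2, norm_mul, hu, mul_one, norm_real, Real.norm_eq_abs, abs_lt]
    constructor <;> linarith [hc.1, hc.2]) 1 ⟨hr3.le, le_rfl⟩
  have e3 : (C.Ψ k (r * u) - C.Ψ k u) - (r - 1) * (u * deriv (C.Ψ k) u) =
      -((C.Ψ k (((1 : ℝ) : ℂ) * u) - ((1 : ℝ) : ℂ) * (u * deriv (C.Ψ k) u)) -
        (C.Ψ k (r * u) - r * (u * deriv (C.Ψ k) u))) := by
    simp only [ofReal_one, one_mul]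
    ring
  have e4 : ‖((r : ℂ) - 1)‖ = 1 - r := by
    rw [← ofReal_one, ← ofReal_sub, norm_real, Real.norm_eq_abs, abs_of_neg (by linarith)]
    ring
  rw [e3, norm_neg, norm_mul, norm_mul, hu, one_mul, e4]
  have e5 : m ≤ ‖deriv (C.Ψ k) u‖ := hmin (by simpa using hu)
  nlinarith

/-- The rotation index of the boundary curves (Umlaufsatz). -/
lemma wn_tangent (k : Fin n) {ρ : ℝ} (h1 : 1 - C.δ < ρ) (h2 : ρ ≤ 1) :
    wn (fun u => u * deriv (C.Ψ k) u) ρ = -1 := by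
  have hδ := C.δ_pos
  have hδ' := C.δ_lt
  have g1 : 1 - C.δ < 1 := by linarith
  have g2 : 1 < 1 + C.δ := by linarith
  rw [← wn_annulus (pos_of h1) h2 fun u e1 e2 =>
    good_tangent k (ρ := ‖u‖) (by linarith) (by linarith) u (by simp)]
  obtain ⟨r, hr1, hr2, hr⟩ := exists_close (C := C) k
  have hr0 := pos_of hr1
  have hrc : (r : ℂ) - 1 ≠ 0 := by
    rw [sub_ne_zero]
    exact_mod_cast hr2.ne
  obtain ⟨hg, e1⟩ := wn_const_mul zero_le_one (good_tangent k g1 g2) hrc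
  have hnr : ∀ u : ℂ, ‖u‖ = 1 → ‖(r : ℂ) * u‖ = r := fun u hu => by
    rw [norm_mul, hu, mul_one, norm_real, Real.norm_eq_abs, abs_of_pos hr0]
  obtain ⟨hg2, e2⟩ := wn_eq_of_close zero_le_one hg (g := fun u => C.Ψ k (r * u) - C.Ψ k u) (by
    intro u hu
    have hu' : ‖u‖ = 1 := by simpa using hu
    refine ⟨AnalyticAt.sub ?_ (an_sphere k g1 g2 u hu), hr u hu'⟩
    exact (C.an k (r * u) (by rw [hnr u hu']; exact hr1)
      (by rw [hnr u hu']; linarith)).comp_of_eq (by fun_prop) rfl)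
  rw [← e1, ← e2]
  have hne : ∀ u v : ℂ, ‖u‖ = r → ‖v‖ = 1 → C.Ψ k u ≠ C.Ψ k v := fun u v hu hv he => by
    have := (C.inj k k u v (by linarith) (by linarith) (by linarith) (by linarith) he).2
    subst this
    linarith
  have hc1 := circle_continuous hr0.le fun u hu =>
    (an_sphere k hr1 (by linarith) u hu).continuousAt
  have hc2 := circle_continuous zero_le_one fun u hu => (an_sphere k g1 g2 u hu).continuousAt
  have hsc : IsSimplyConnected (univ : Set (ℝ × ℝ)) := by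
    have := (convex_univ (𝕜 := ℝ) (E := ℝ × ℝ)).contractibleSpace univ_nonempty
    exact SimplyConnectedSpace.ofContractible _
  obtain ⟨Λ, hΛ, hΛe⟩ := exists_continuousOn_eqOn_exp_comp (X := ℝ × ℝ) (U := univ)
    hsc isOpen_univ
    (g := fun p => C.Ψ k (circleMap 0 r p.1) - C.Ψ k (circleMap 0 1 p.2))
    ((hc1.comp continuous_fst).sub (hc2.comp continuous_snd)).continuousOn (by
      rintro ⟨p, -, hp⟩
      exact hne _ _ (by simp [abs_of_pos hr0]) (by simp) (sub_eq_zero.1 hp))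
  have hΛc : Continuous Λ := continuousOn_univ.1 hΛ
  have hΛe' : ∀ s t, exp (Λ (s, t)) = C.Ψ k (circleMap 0 r s) - C.Ψ k (circleMap 0 1 t) :=
    fun s t => hΛe (mem_univ (s, t))
  have f1 := wn_eq_of_lift zero_le_one hg2 (l := fun t => Λ (t, t)) (by fun_prop) fun t => by
    rw [hΛe']
    simp [circleMap]
  have f2 := wn_eq_of_lift hr0.le (good_ind k hr1 (by linarith) (a := C.Ψ k 1)
    fun u hu => hne u 1 hu norm_one) (l := fun t => Λ (t, 0)) (by fun_prop) fun t => by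
    rw [hΛe']
    simp [circleMap]
  have hnr' : ‖(r : ℂ)‖ = r := by simpa using hnr 1 norm_one
  obtain ⟨hg3, e3⟩ := wn_const_mul zero_le_one (good_ind k g1 g2 (a := C.Ψ k r)
    fun u hu => (hne r u hnr' hu).symm) (c := -1) (by norm_num)
  have f3 := wn_eq_of_lift zero_le_one hg3 (l := fun t => Λ (2 * π, t)) (by fun_prop) fun t => by
    rw [hΛe']
    simp [circleMap]
  have i2 : C.ind k r (C.Ψ k 1) = -1 := by
    simpa using ind_outer k k hr1 hr2 (v := 1) (by simpa using hr2) (by simpa using hδ)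
  have i3 : C.ind k 1 (C.Ψ k r) = 0 := ind_one k (C.inside k r (by linarith) (by linarith))
  rw [ind, f2] at i2
  rw [ind, ← e3, f3] at i3
  rw [f1]
  linear_combination i2 + i3

end Collar

end Pool.Agent.MP_476a06_an

end

section

/-! Cauchy's formula and the argument principle for the level curves of a collar. -/

set_option autoImplicit false

open Complex Metric Set Filter Topology MeasureTheory
open scoped Real Interval

namespace Pool.Agent.MP_476a06_an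

lemma eventually_cocompact_iff {P : ℂ → Prop} :
    (∀ᶠ a in cocompact ℂ, P a) ↔ ∃ R : ℝ, ∀ a, R ≤ ‖a‖ → P a := by
  rw [← Metric.cobounded_eq_cocompact, Filter.hasBasis_cobounded_norm.eventually_iff]
  simp

lemma exists_annulus_of_nhds {P : ℂ → Prop} {ρ : ℝ} (hρ : 0 < ρ)
    (h : ∀ v : ℂ, ‖v‖ = ρ → ∀ᶠ u in 𝓝 v, P u) :
    ∃ ε > 0, ∀ u : ℂ, ρ - ε < ‖u‖ → ‖u‖ < ρ + ε → P u := by
  obtain ⟨ε, hε, hth⟩ := (isCompact_sphere (0 : ℂ) ρ).exists_thickening_subset_open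
    (t := interior {u | P u}) isOpen_interior
    fun v hv => mem_interior_iff_mem_nhds.2 (h v (by simpa using hv))
  refine ⟨min ε ρ, lt_min hε hρ, fun u h1 h2 => ?_⟩
  have e1 := min_le_left ε ρ
  have e2 := min_le_right ε ρ
  have hu : u ≠ 0 := norm_pos_iff.1 (by linarith)
  have h0 : (‖u‖ : ℂ) ≠ 0 := by exact_mod_cast norm_ne_zero_iff.2 hu
  refine interior_subset (s := {u | P u})
    (hth (mem_thickening_iff.2 ⟨ρ * (u / (‖u‖ : ℂ)), ?_, ?_⟩))
  · rw [mem_sphere_zero_iff_norm, norm_mul, norm_normalize hu, mul_one, norm_real,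
      Real.norm_eq_abs, abs_of_pos hρ]
  · have : u - ρ * (u / (‖u‖ : ℂ)) = ((‖u‖ - ρ : ℝ) : ℂ) * (u / (‖u‖ : ℂ)) := by
      push_cast
      field_simp
    rw [dist_eq_norm, this, norm_mul, norm_normalize hu, mul_one, norm_real, Real.norm_eq_abs,
      abs_lt]
    constructor <;> linarith

lemma deriv_decay {u : ℂ → ℂ} {L : ℂ} (hd : ∀ᶠ t in cocompact ℂ, DifferentiableAt ℂ u t)
    (hL : Tendsto u (cocompact ℂ) (𝓝 L)) :
    Tendsto (fun t => t * deriv u t) (cocompact ℂ) (𝓝 0) := by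
  rw [NormedAddGroup.tendsto_nhds_zero]
  intro ε hε
  have h1 : ∀ᶠ t in cocompact ℂ, ‖u t - L‖ ≤ ε / 4 := by
    have := hL.eventually (closedBall_mem_nhds L (by linarith : 0 < ε / 4))
    simpa [dist_eq_norm] using this
  obtain ⟨R, hR⟩ := eventually_cocompact_iff.1 (hd.and h1)
  refine eventually_cocompact_iff.2 ⟨2 * |R| + 1, fun t ht => ?_⟩
  have hR0 := abs_nonneg R
  have hR1 := le_abs_self R
  have hpos : 0 < ‖t‖ := by linarith
  have hball : ∀ z ∈ closedBall t (‖t‖ / 2), R ≤ ‖z‖ := fun z hz => by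
    have e1 : ‖z - t‖ ≤ ‖t‖ / 2 := by simpa [dist_eq_norm] using hz
    have e2 := norm_sub_norm_le t z
    rw [norm_sub_rev] at e2
    linarith
  have hdc : DiffContOnCl ℂ (fun z => u z - L) (ball t (‖t‖ / 2)) := by
    refine DifferentiableOn.diffContOnCl fun z hz => ?_
    exact ((hR z (hball z (closure_ball_subset_closedBall hz))).1.sub_const L).differentiableWithinAt
  have h2 := norm_deriv_le_of_forall_mem_sphere_norm_le (half_pos hpos) hdc
    fun z hz => (hR z (hball z (sphere_subset_closedBall hz))).2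
  rw [deriv_sub_const] at h2
  rw [norm_mul]
  calc ‖t‖ * ‖deriv u t‖ ≤ ‖t‖ * (ε / 4 / (‖t‖ / 2)) := by gcongr
    _ = ε / 2 := by field_simp; ring
    _ < ε := by linarith

lemma tendsto_inv_sub (b : ℂ) : Tendsto (fun t : ℂ => (t - b)⁻¹) (cocompact ℂ) (𝓝 0) := by
  refine squeeze_zero_norm' (a := fun t : ℂ => (‖t‖ - ‖b‖)⁻¹) ?_ ?_
  · filter_upwards [(tendsto_norm_cocompact_atTop (E := ℂ)).eventually_gt_atTop ‖b‖] with t ht
    rw [norm_inv]
    exact inv_anti₀ (by linarith) (norm_sub_norm_le t b)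
  · exact tendsto_inv_atTop_zero.comp
      (tendsto_atTop_add_const_right _ (-‖b‖) (tendsto_norm_cocompact_atTop (E := ℂ)))

lemma eventually_ne_cocompact (b : ℂ) : ∀ᶠ t in cocompact ℂ, t ≠ b := by
  filter_upwards [(tendsto_norm_cocompact_atTop (E := ℂ)).eventually_gt_atTop ‖b‖] with t ht he
  rw [he] at ht
  exact lt_irrefl _ ht

lemma tendsto_ratio (b c : ℂ) :
    Tendsto (fun t : ℂ => (t - c) / (t - b)) (cocompact ℂ) (𝓝 1) := by
  have h := ((tendsto_inv_sub b).const_mul (b - c)).const_add 1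
  rw [mul_zero, add_zero] at h
  refine h.congr' ?_
  filter_upwards [eventually_ne_cocompact b] with t ht
  have := sub_ne_zero.2 ht
  field_simp
  ring

namespace Collar

variable {Ω : Set ℂ} {n : ℕ} (C : Collar Ω n)

/-- The integral of `f` along all level curves at level `ρ`. -/
noncomputable def J (ρ : ℝ) (f : ℂ → ℂ) : ℂ :=
  ∑ k, ∮ u in C(0, ρ), f (C.Ψ k u) * deriv (C.Ψ k) u

/-- The Cauchy integral of `f` along all level curves. -/
noncomputable def CF (ρ : ℝ) (f : ℂ → ℂ) (a : ℂ) : ℂ :=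
  ∑ k, CI (C.Ψ k) (fun u => f (C.Ψ k u) * deriv (C.Ψ k) u) ρ a

/-- The point `a` is not on a level curve of level `ρ`. -/
def Off (ρ : ℝ) (a : ℂ) : Prop := ∀ k u, ‖u‖ = ρ → C.Ψ k u ≠ a

variable {C}

lemma J_congr {ρ : ℝ} (hρ : 0 ≤ ρ) {f g : ℂ → ℂ}
    (h : ∀ k u, ‖u‖ = ρ → f (C.Ψ k u) = g (C.Ψ k u)) : C.J ρ f = C.J ρ g :=
  Finset.sum_congr rfl fun k _ => circleIntegral.integral_congr hρ fun u hu => by
    simp only [h k u (by simpa using hu)]

lemma J_div_eq_CF (ρ : ℝ) (f : ℂ → ℂ) (a : ℂ) : C.J ρ (fun t => f t / (t - a)) = C.CF ρ f a := by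
  simp only [J, CF, CI, div_mul_eq_mul_div]

lemma J_shift {r R : ℝ} (h1 : 1 - C.δ < r) (hle : r ≤ R) (h2 : R < 1 + C.δ) {f : ℂ → ℂ}
    {S : Set ℂ} (hc : ContinuousOn f S) (hS : ∀ k u, r ≤ ‖u‖ → ‖u‖ ≤ R → C.Ψ k u ∈ S)
    (hd : ∀ k u, r < ‖u‖ → ‖u‖ < R → DifferentiableAt ℂ f (C.Ψ k u)) : C.J R f = C.J r f := by
  refine Finset.sum_congr rfl fun k _ => ?_
  refine circleIntegral_eq_of_differentiable_on_annulus_off_countable (pos_of h1) hle
    countable_empty ?_ ?_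
  · have hm : ∀ u ∈ closedBall (0 : ℂ) R \ ball 0 r, r ≤ ‖u‖ ∧ ‖u‖ ≤ R := fun u hu => by
      simp only [Set.mem_sdiff, mem_closedBall, dist_zero_right, mem_ball, not_lt] at hu
      exact ⟨hu.2, hu.1⟩
    have ha : ∀ u ∈ closedBall (0 : ℂ) R \ ball 0 r, AnalyticAt ℂ (C.Ψ k) u := fun u hu =>
      C.an k u (h1.trans_le (hm u hu).1) ((hm u hu).2.trans_lt h2)
    refine ContinuousOn.mul (hc.comp (fun u hu => (ha u hu).continuousAt.continuousWithinAt)
      fun u hu => hS k u (hm u hu).1 (hm u hu).2)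
      fun u hu => (ha u hu).deriv.continuousAt.continuousWithinAt
  · intro u hu
    simp only [Set.mem_sdiff, mem_closedBall, dist_zero_right, mem_ball, not_le] at hu
    have ha := C.an k u (h1.trans hu.1.2) (hu.1.1.trans h2)
    exact ((hd k u hu.1.2 hu.1.1).comp u ha.differentiableAt).mul ha.deriv.differentiableAt

lemma isCompact_curves {ρ : ℝ} (h1 : 1 - C.δ < ρ) (h2 : ρ < 1 + C.δ) :
    IsCompact (⋃ k, C.Ψ k '' sphere 0 ρ) :=
  isCompact_iUnion fun k => (isCompact_sphere 0 ρ).image_of_continuousOn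
    fun u hu => (an_sphere k h1 h2 u hu).continuousAt.continuousWithinAt

lemma off_iff {ρ : ℝ} {a : ℂ} : C.Off ρ a ↔ a ∉ ⋃ k, C.Ψ k '' sphere 0 ρ := by
  simp [Off]

lemma Off.eventually {ρ : ℝ} (h1 : 1 - C.δ < ρ) (h2 : ρ < 1 + C.δ) {a : ℂ} (ha : C.Off ρ a) :
    ∀ᶠ b in 𝓝 a, C.Off ρ b := by
  filter_upwards [(isCompact_curves h1 h2).isClosed.isOpen_compl.mem_nhds (off_iff.1 ha)] with b hb
  exact off_iff.2 hb

lemma eventually_off_cocompact {ρ : ℝ} (h1 : 1 - C.δ < ρ) (h2 : ρ < 1 + C.δ) :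
    ∀ᶠ b in cocompact ℂ, C.Off ρ b := by
  filter_upwards [(isCompact_curves h1 h2).compl_mem_cocompact] with b hb
  exact off_iff.2 hb

lemma eventually_tot_zero {ρ : ℝ} (h1 : 1 - C.δ < ρ) (h2 : ρ < 1) :
    ∀ᶠ b in cocompact ℂ, C.tot ρ b = 0 := by
  have h2' : ρ < 1 + C.δ := by linarith [C.δ_pos]
  filter_upwards [eventually_off_cocompact h1 h2', (tot_tendsto h1 h2').eventually_ne
    (show (0 : ℂ) ≠ -1 by norm_num)] with b hb1 hb2
  exact (tot_cases h1 h2 hb1).resolve_left hb2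

lemma eventually_tot_neg {ρ : ℝ} (h1 : 1 - C.δ < ρ) (h2 : ρ < 1) {a : ℂ} (ha : C.Off ρ a)
    (ht : C.tot ρ a = -1) : ∀ᶠ b in 𝓝 a, C.Off ρ b ∧ C.tot ρ b = -1 := by
  have h2' : ρ < 1 + C.δ := by linarith [C.δ_pos]
  filter_upwards [ha.eventually h1 h2', (tot_differentiableAt h1 h2' ha).continuousAt.eventually_ne
    (y := 0) (by rw [ht]; norm_num)] with b hb1 hb2
  exact ⟨hb1, (tot_cases h1 h2 hb1).resolve_right hb2⟩

lemma contAt_integrand {ρ : ℝ} (h1 : 1 - C.δ < ρ) (h2 : ρ < 1 + C.δ) {f : ℂ → ℂ}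
    (hf : ∀ k u, ‖u‖ = ρ → ContinuousAt f (C.Ψ k u)) (k : Fin n) :
    ∀ u ∈ sphere (0 : ℂ) ρ, ContinuousAt (fun u => f (C.Ψ k u) * deriv (C.Ψ k) u) u := fun u hu =>
  ((hf k u (by simpa using hu)).comp (an_sphere k h1 h2 u hu).continuousAt).mul
    (an_sphere k h1 h2 u hu).deriv.continuousAt

lemma CF_differentiableAt {ρ : ℝ} (h1 : 1 - C.δ < ρ) (h2 : ρ < 1 + C.δ) {f : ℂ → ℂ}
    (hf : ∀ k u, ‖u‖ = ρ → ContinuousAt f (C.Ψ k u)) {a : ℂ} (ha : C.Off ρ a) :
    DifferentiableAt ℂ (C.CF ρ f) a := by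
  unfold CF
  exact DifferentiableAt.fun_sum fun k _ => differentiableAt_CI (pos_of h1).le
    (fun u hu => (an_sphere k h1 h2 u hu).continuousAt) (contAt_integrand h1 h2 hf k)
    fun u hu => ha k u (by simpa using hu)

lemma CF_bound {ρ : ℝ} (h1 : 1 - C.δ < ρ) (h2 : ρ < 1 + C.δ) {f : ℂ → ℂ}
    (hf : ∀ k u, ‖u‖ = ρ → ContinuousAt f (C.Ψ k u)) :
    ∃ M : ℝ, ∀ᶠ a in cocompact ℂ, ‖C.CF ρ f a‖ ≤ M / ‖a‖ := by
  choose M hM using fun k => CI_bound (pos_of h1).le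
    (fun u hu => (an_sphere k h1 h2 u hu).continuousAt) (contAt_integrand h1 h2 hf k)
  refine ⟨∑ k, M k, ?_⟩
  filter_upwards [eventually_all.2 hM] with a ha
  rw [Finset.sum_div]
  exact (norm_sum_le _ _).trans (Finset.sum_le_sum fun k _ => ha k)

lemma J_dslope {ρ : ℝ} (h1 : 1 - C.δ < ρ) (h2 : ρ < 1 + C.δ) {f : ℂ → ℂ}
    (hf : ∀ k u, ‖u‖ = ρ → ContinuousAt f (C.Ψ k u)) {a : ℂ} (ha : C.Off ρ a) :
    C.J ρ (dslope f a) = C.CF ρ f a - f a * (2 * π * I * C.tot ρ a) := by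
  have hρ := (pos_of h1).le
  simp only [J, CF, tot, Finset.mul_sum, ← Finset.sum_sub_distrib]
  refine Finset.sum_congr rfl fun k _ => ?_
  have hne : ∀ u ∈ sphere (0 : ℂ) ρ, C.Ψ k u - a ≠ 0 := fun u hu =>
    sub_ne_zero.2 (ha k u (by simpa using hu))
  have i1 : CircleIntegrable (fun u => f (C.Ψ k u) * deriv (C.Ψ k) u / (C.Ψ k u - a)) 0 ρ :=
    ContinuousOn.circleIntegrable hρ fun u hu => ((contAt_integrand h1 h2 hf k u hu).div
      ((an_sphere k h1 h2 u hu).continuousAt.sub continuousAt_const) (hne u hu)).continuousWithinAt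
  have i2 : CircleIntegrable (fun u => f a * (deriv (C.Ψ k) u / (C.Ψ k u - a))) 0 ρ :=
    ContinuousOn.circleIntegrable hρ fun u hu => (continuousAt_const.mul
      ((an_sphere k h1 h2 u hu).deriv.continuousAt.div
      ((an_sphere k h1 h2 u hu).continuousAt.sub continuousAt_const) (hne u hu))).continuousWithinAt
  rw [ind_eq_CI]
  simp only [CI]
  rw [← mul_assoc (2 * π * I), mul_inv_cancel₀ two_pi_I_ne, one_mul,
    ← circleIntegral.integral_const_mul, ← circleIntegral.integral_sub i1 i2]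
  refine circleIntegral.integral_congr hρ fun u hu => ?_
  have := hne u hu
  rw [dslope_of_ne _ (sub_ne_zero.1 this), slope_def_field]
  field_simp

/-- Cauchy's integral formula (Dixon's argument). -/
theorem cauchy {U : Set ℂ} (hU : IsOpen U) {ρ : ℝ} (h1 : 1 - C.δ < ρ) (h2 : ρ < 1)
    (hUc : ∀ a ∉ U, C.Off ρ a ∧ C.tot ρ a = -1) {f : ℂ → ℂ} (hf : DifferentiableOn ℂ f U)
    (hf0 : Tendsto f (cocompact ℂ) (𝓝 0)) {a : ℂ} (ha : a ∈ U) (hoff : C.Off ρ a) :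
    C.CF ρ f a = 2 * π * I * (C.tot ρ a + 1) * f a := by
  classical
  have hδ := C.δ_pos
  have h2' : ρ < 1 + C.δ := by linarith
  have hρ := pos_of h1
  have hin : ∀ k u, ‖u‖ = ρ → C.Ψ k u ∈ U := fun k u hu => by
    by_contra h
    exact (hUc _ h).1 k u hu rfl
  obtain ⟨ε, hε, hε'⟩ := exists_annulus_of_nhds (P := fun u => ∀ k, C.Ψ k u ∈ U) hρ fun v hv =>
    eventually_all.2 fun k => (C.an k v (hv ▸ h1) (hv ▸ h2')).continuousAt.eventually
      (hU.mem_nhds (hin k v hv))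
  set r := min (ρ + ε / 2) 1 with hr
  have hr1 : ρ < r := lt_min (by linarith) h2
  have hr2 : r ≤ 1 := min_le_right _ _
  have hr3 : r ≤ ρ + ε / 2 := min_le_left _ _
  have hin' : ∀ k u, ρ ≤ ‖u‖ → ‖u‖ ≤ r → C.Ψ k u ∈ U := fun k u e1 e2 =>
    hε' u (by linarith) (by linarith) k
  have hfa : ∀ x ∈ U, DifferentiableAt ℂ f x := fun x hx => hf.differentiableAt (hU.mem_nhds hx)
  have hcρ : ∀ k u, ‖u‖ = ρ → ContinuousAt f (C.Ψ k u) := fun k u hu =>
    (hfa _ (hin k u hu)).continuousAt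
  have hcr : ∀ k u, ‖u‖ = r → ContinuousAt f (C.Ψ k u) := fun k u hu =>
    (hfa _ (hin' k u (by linarith) hu.le)).continuousAt
  have hshift : ∀ x ∈ U, C.J r (dslope f x) = C.J ρ (dslope f x) := fun x hx => by
    have hd := (differentiableOn_dslope (hU.mem_nhds hx)).2 hf
    exact J_shift h1 hr1.le (by linarith) hd.continuousOn hin'
      fun k u e1 e2 => hd.differentiableAt (hU.mem_nhds (hin' k u e1.le e2.le))
  set H : ℂ → ℂ := fun x => if x ∈ U then C.J ρ (dslope f x) - 2 * π * I * f x else C.CF ρ f x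
    with hH
  have hHd : Differentiable ℂ H := by
    intro x
    by_cases hx : x ∈ U
    · have key : ∀ s : ℝ, 1 - C.δ < s → s < 1 + C.δ →
          (∀ k u, ‖u‖ = s → ContinuousAt f (C.Ψ k u)) → C.Off s x →
          (∀ y ∈ U, C.J s (dslope f y) = C.J ρ (dslope f y)) → DifferentiableAt ℂ H x := by
        intro s s1 s2 s3 s4 s5
        have hd : DifferentiableAt ℂ
            (fun y => C.CF s f y - f y * (2 * π * I * C.tot s y) - 2 * π * I * f y) x :=
          ((CF_differentiableAt s1 s2 s3 s4).sub ((hfa x hx).mul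
            ((tot_differentiableAt s1 s2 s4).const_mul _))).sub ((hfa x hx).const_mul _)
        refine hd.congr_of_eventuallyEq ?_
        filter_upwards [hU.mem_nhds hx, s4.eventually s1 s2] with y hy1 hy2
        simp only [hH, if_pos hy1]
        rw [← s5 y hy1, J_dslope s1 s2 s3 hy2]
      by_cases ho : C.Off ρ x
      · exact key ρ h1 h2' hcρ ho fun _ _ => rfl
      · refine key r (by linarith) (by linarith) hcr ?_ hshift
        simp only [Off, not_forall, not_not] at ho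
        obtain ⟨k, v, hv, rfl⟩ := ho
        intro j u hu he
        have := (C.inj j k u v (by linarith) (by linarith) (by linarith) (by linarith) he).2
        subst this
        linarith
    · refine (CF_differentiableAt h1 h2' hcρ (hUc x hx).1).congr_of_eventuallyEq ?_
      filter_upwards [eventually_tot_neg h1 h2 (hUc x hx).1 (hUc x hx).2] with y hy
      simp only [hH]
      split_ifs with hyU
      · rw [J_dslope h1 h2' hcρ hy.1, hy.2]
        ring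
      · rfl
  have hH0 : Tendsto H (cocompact ℂ) (𝓝 0) := by
    obtain ⟨M, hM⟩ := CF_bound h1 h2' hcρ
    have h3 := (tendsto_of_bound hM).sub (hf0.const_mul (2 * π * I))
    rw [mul_zero, sub_zero] at h3
    refine h3.congr' ?_
    filter_upwards [eventually_off_cocompact h1 h2', eventually_tot_zero h1 h2] with y hy1 hy2
    have hyU : y ∈ U := by
      by_contra h
      have := (hUc y h).2
      rw [hy2] at this
      norm_num at this
    simp only [hH, if_pos hyU]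
    rw [J_dslope h1 h2' hcρ hy1, hy2]
    ring
  have h4 := hHd.apply_eq_of_tendsto_cocompact a hH0
  simp only [hH, if_pos ha] at h4
  rw [J_dslope h1 h2' hcρ hoff] at h4
  linear_combination h4

theorem cauchy_Ω {ρ : ℝ} (h1 : 1 - C.δ < ρ) (h2 : ρ < 1) {f : ℂ → ℂ} (hf : DifferentiableOn ℂ f Ω)
    (hf0 : Tendsto f (cocompact ℂ) (𝓝 0)) {a : ℂ} (ha : a ∈ Ω) (hoff : C.Off ρ a)
    (ht : C.tot ρ a = 0) : C.J ρ (fun t => f t / (t - a)) = 2 * π * I * f a := by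
  rw [J_div_eq_CF, cauchy C.isOpen h1 h2
    (fun x hx => ⟨off_of_not_mem h1 h2 hx, tot_compl h1 h2 hx⟩) hf hf0 ha hoff, ht]
  ring

include C in
/-- A holomorphic function vanishing at infinity is `O(1/|a|)` there. -/
lemma decay {f : ℂ → ℂ} (hf : DifferentiableOn ℂ f Ω) (hf0 : Tendsto f (cocompact ℂ) (𝓝 0)) :
    ∃ M : ℝ, ∀ᶠ a in cocompact ℂ, ‖f a‖ ≤ M / ‖a‖ := by
  have hδ := C.δ_pos
  have h1 : 1 - C.δ < 1 - C.δ / 2 := by linarith
  have h2 : 1 - C.δ / 2 < 1 := by linarith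
  obtain ⟨M, hM⟩ := CF_bound h1 (by linarith) (f := f) fun k u hu =>
    (hf.differentiableAt (C.isOpen.mem_nhds (C.inside k u (hu ▸ h1) (hu ▸ h2)))).continuousAt
  refine ⟨M / (2 * π), ?_⟩
  filter_upwards [hM, C.eventually_mem, eventually_off_cocompact h1 (by linarith),
    eventually_tot_zero h1 h2] with a e1 e2 e3 e4
  rw [← J_div_eq_CF, cauchy_Ω h1 h2 hf hf0 e2 e3 e4] at e1
  have : ‖(2 * π * I : ℂ)‖ = 2 * π := by simp [abs_of_pos Real.pi_pos]
  rw [norm_mul, this] at e1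
  rw [div_right_comm, le_div_iff₀ (by positivity)]
  linarith

theorem J_zero {U : Set ℂ} (hU : IsOpen U) {ρ : ℝ} (h1 : 1 - C.δ < ρ) (h2 : ρ < 1)
    (hUc : ∀ a ∉ U, C.Off ρ a ∧ C.tot ρ a = -1) {p : ℂ → ℂ} (hp : DifferentiableOn ℂ p U)
    (hp0 : Tendsto (fun t => t * p t) (cocompact ℂ) (𝓝 0)) : C.J ρ p = 0 := by
  have h2' : ρ < 1 + C.δ := by linarith [C.δ_pos]
  obtain ⟨a, ha1, ha2⟩ := ((eventually_off_cocompact h1 h2').and (eventually_tot_zero h1 h2)).exists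
  have haU : a ∈ U := by
    by_contra h
    have := (hUc a h).2
    rw [ha2] at this
    norm_num at this
  have h3 : Tendsto (fun t => (t - a) * p t) (cocompact ℂ) (𝓝 0) := by
    have := (tendsto_ratio 0 a).mul hp0
    rw [mul_zero] at this
    refine this.congr' ?_
    filter_upwards [eventually_ne_cocompact 0] with t ht
    field_simp
    ring
  have h4 := cauchy hU h1 h2 hUc (f := fun t => (t - a) * p t)
    ((differentiableOn_id.sub_const a).mul hp) h3 haU ha1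
  rw [← J_div_eq_CF] at h4
  simp only [sub_self, zero_mul, mul_zero] at h4
  rw [← h4]
  refine J_congr (pos_of h1).le fun k u hu => ?_
  have := sub_ne_zero.2 (ha1 k u hu)
  field_simp

lemma good_comp {ρ : ℝ} (h1 : 1 - C.δ < ρ) (h2 : ρ < 1) {f : ℂ → ℂ} (hf : DifferentiableOn ℂ f Ω)
    (k : Fin n) (h0 : ∀ u, ‖u‖ = ρ → f (C.Ψ k u) ≠ 0) : Good (fun u => f (C.Ψ k u)) ρ := by
  intro u hu
  have hu' : ‖u‖ = ρ := by simpa using hu
  exact ⟨(hf.analyticAt (C.isOpen.mem_nhds (C.inside k u (hu' ▸ h1) (hu' ▸ h2)))).comp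
    (an_sphere k h1 (by linarith [C.δ_pos]) u hu), h0 u hu'⟩

lemma sum_wn_eq_zero {ρ : ℝ} (h1 : 1 - C.δ < ρ) (h2 : ρ < 1) {g : ℂ → ℂ}
    (hg : DifferentiableOn ℂ g Ω) {L : ℂ} (hL : L ≠ 0) (hlim : Tendsto g (cocompact ℂ) (𝓝 L))
    (h0 : ∀ a ∈ Ω, g a = 0 → C.Off ρ a ∧ C.tot ρ a = -1) :
    ∑ k, wn (fun u => g (C.Ψ k u)) ρ = 0 := by
  have h2' : ρ < 1 + C.δ := by linarith [C.δ_pos]
  have hU : IsOpen (Ω ∩ g ⁻¹' {0}ᶜ) :=
    hg.continuousOn.isOpen_inter_preimage C.isOpen isOpen_compl_singleton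
  have hJ := J_zero hU h1 h2 (p := fun t => deriv g t / g t) (fun a ha => by
    by_cases haΩ : a ∈ Ω
    · exact h0 a haΩ (by simpa [haΩ] using ha)
    · exact ⟨off_of_not_mem h1 h2 haΩ, tot_compl h1 h2 haΩ⟩)
    (((hg.deriv C.isOpen).mono inter_subset_left).div (hg.mono inter_subset_left)
      fun x hx => hx.2) (by
      have := (deriv_decay (C.eventually_mem.mono fun t ht =>
        hg.differentiableAt (C.isOpen.mem_nhds ht)) hlim).div hlim hL
      rw [zero_div] at this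
      exact this.congr fun t => by simp [mul_div_assoc])
  simp only [wn, ← Finset.mul_sum]
  rw [mul_eq_zero]
  right
  refine Eq.trans ?_ hJ
  refine Finset.sum_congr rfl fun k _ => circleIntegral.integral_congr (pos_of h1).le fun u hu => ?_
  have hu' : ‖u‖ = ρ := by simpa using hu
  have e := (hg.differentiableAt (C.isOpen.mem_nhds (C.inside k u (hu' ▸ h1) (hu' ▸ h2)))).hasDerivAt.comp u
    (an_sphere k h1 h2' u hu).differentiableAt.hasDerivAt
  have e' : deriv (fun u => g (C.Ψ k u)) u = deriv g (C.Ψ k u) * deriv (C.Ψ k) u := e.deriv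
  simp only [e']
  ring

/-- The argument principle, as an inequality. -/
theorem one_le_sum_wn {ρ : ℝ} (h1 : 1 - C.δ < ρ) (h2 : ρ < 1) {c : ℂ} (hc : c ∉ Ω) {f : ℂ → ℂ}
    (hf : DifferentiableOn ℂ f Ω) (hf0 : Tendsto f (cocompact ℂ) (𝓝 0)) (hne : ∃ x ∈ Ω, f x ≠ 0)
    (h0 : ∀ k u, ‖u‖ = ρ → f (C.Ψ k u) ≠ 0) : 1 ≤ (∑ k, wn (fun u => f (C.Ψ k u)) ρ).re := by
  have h2' : ρ < 1 + C.δ := by linarith [C.δ_pos]
  have hρ := pos_of h1
  have hin : ∀ k u, ‖u‖ = ρ → C.Ψ k u ∈ Ω := fun k u hu => C.inside k u (hu ▸ h1) (hu ▸ h2)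
  obtain ⟨m, hm, hm'⟩ := (isCompact_curves h1 h2').exists_forall_le' (f := fun t => ‖f t‖) (a := 0)
    (by
      refine (hf.continuousOn.mono ?_).norm
      intro t ht
      simp only [mem_iUnion, mem_image, mem_sphere_zero_iff_norm] at ht
      obtain ⟨k, u, hu, rfl⟩ := ht
      exact hin k u hu)
    (by
      intro t ht
      simp only [mem_iUnion, mem_image, mem_sphere_zero_iff_norm] at ht
      obtain ⟨k, u, hu, rfl⟩ := ht
      exact norm_pos_iff.2 (h0 k u hu))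
  have hm2 : ∀ k u, ‖u‖ = ρ → m ≤ ‖f (C.Ψ k u)‖ := fun k u hu =>
    hm' _ (mem_iUnion.2 ⟨k, u, by simpa using hu, rfl⟩)
  have hfreq : ∃ᶠ a in cocompact ℂ, f a ≠ 0 := by
    intro hev
    simp only [not_not] at hev
    obtain ⟨R, hR⟩ := eventually_cocompact_iff.1 hev
    obtain ⟨a, ha1, ha2⟩ := (C.eventually_mem.and
      ((tendsto_norm_cocompact_atTop (E := ℂ)).eventually_gt_atTop R)).exists
    obtain ⟨x, hx, hx0⟩ := hne
    refine hx0 ((hf.analyticOnNhd C.isOpen).eqOn_zero_of_preconnected_of_eventuallyEq_zero C.conn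
      ha1 ?_ hx)
    filter_upwards [(isOpen_lt continuous_const continuous_norm).mem_nhds ha2] with y hy
    exact hR y (le_of_lt hy)
  have hsm : ∀ᶠ a in cocompact ℂ, ‖f a‖ < m := hf0.norm.eventually_lt_const (by simpa using hm)
  obtain ⟨a₀, hη, ⟨ha₀, hoff₀⟩, htot₀, hsm₀⟩ := (hfreq.and_eventually
    ((C.eventually_mem.and (eventually_off_cocompact h1 h2')).and
      ((eventually_tot_zero h1 h2).and hsm))).exists
  set η := f a₀ with hηdef
  have hf1 : DifferentiableOn ℂ (fun t => f t - η) Ω := hf.sub_const η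
  have hclose : ∀ k, Good (fun u => f (C.Ψ k u) - η) ρ ∧
      wn (fun u => f (C.Ψ k u) - η) ρ = wn (fun u => f (C.Ψ k u)) ρ := fun k =>
    wn_eq_of_close hρ.le (good_comp h1 h2 hf k (h0 k)) fun u hu =>
      ⟨(good_comp h1 h2 hf k (h0 k) u hu).1.sub analyticAt_const, by
        simpa using hsm₀.trans_le (hm2 k u (by simpa using hu))⟩
  have hfar : ∀ᶠ a in cocompact ℂ, f a - η ≠ 0 := by
    filter_upwards [hf0.eventually_ne (Ne.symm hη)] with a ha
    exact sub_ne_zero.2 ha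
  obtain ⟨R, hR⟩ := eventually_cocompact_iff.1 hfar
  have hV : IsOpen {a | C.Off ρ a ∧ C.tot ρ a = -1} :=
    isOpen_iff_mem_nhds.2 fun a ha => eventually_tot_neg h1 h2 ha.1 ha.2
  have hVΩ : ∀ a, ¬(C.Off ρ a ∧ C.tot ρ a = -1) → a ∈ Ω := fun a ha => by
    by_contra h
    exact ha ⟨off_of_not_mem h1 h2 h, tot_compl h1 h2 h⟩
  obtain ⟨l, g, hl, hg, hgK, hfg⟩ := exists_factor C.isOpen C.conn
    ((isCompact_closedBall (0 : ℂ) R).inter_right hV.isClosed_compl)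
    (fun a ha => hVΩ a ha.2) hf1 (by
      obtain ⟨x, hx1, hx2⟩ := (C.eventually_mem.and hfar).exists
      exact ⟨x, hx1, hx2⟩)
  have hg0 : ∀ a, g a = 0 → C.Off ρ a ∧ C.tot ρ a = -1 := fun a ha => by
    by_contra h
    have e1 : f a - η = 0 := by rw [hfg a, ha, mul_zero]
    refine hgK a ⟨?_, h⟩ ha
    by_contra h'
    exact hR a (le_of_lt (by simpa using h')) e1
  have hlz : ∀ b ∈ l, f b - η = 0 := fun b hb => by
    rw [hfg b, List.prod_eq_zero, zero_mul]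
    exact List.mem_map.2 ⟨b, hb, sub_self b⟩
  have hloff : ∀ b ∈ l, C.Off ρ b := fun b hb k u hu he =>
    ((hclose k).1 u (by simpa using hu)).2 (by simpa [he] using hlz b hb)
  have ha₀l : a₀ ∈ l := by
    have e1 := hfg a₀
    rw [← hηdef, sub_self, eq_comm, mul_eq_zero] at e1
    rcases e1 with e1 | e1
    · obtain ⟨b, hb, he⟩ := List.mem_map.1 (List.prod_eq_zero_iff.1 e1)
      rwa [sub_eq_zero.1 he]
    · have := (hg0 a₀ e1).2
      rw [htot₀] at this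
      norm_num at this
  have hgg : ∀ k, Good (fun u => g (C.Ψ k u)) ρ := fun k =>
    good_comp h1 h2 hg k fun u hu e => (hg0 _ e).1 k u hu rfl
  have hcoff := off_of_not_mem h1 h2 hc
  have hpd : ∀ l' : List ℂ, Differentiable ℂ fun t => (l'.map fun _ => t - c).prod := by
    intro l'
    simp only [List.map_const', List.prod_replicate]
    fun_prop
  have hZ := sum_wn_eq_zero h1 h2 (g := fun t => (l.map fun _ => t - c).prod * g t)
    ((hpd l).differentiableOn.mul hg) (L := -η) (neg_ne_zero.2 hη) (by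
      have e1 : Tendsto (fun t => (l.map fun b => (t - c) / (t - b)).prod) (cocompact ℂ) (𝓝 1) := by
        have := tendsto_list_prod (f := fun b t => (t - c) / (t - b)) (x := cocompact ℂ)
          (a := fun _ => 1) l fun b _ => tendsto_ratio b c
        simpa using this
      have e2 := e1.mul (hf0.sub_const η)
      rw [one_mul, zero_sub] at e2
      refine e2.congr' ?_
      have e3 : ∀ᶠ t in cocompact ℂ, ∀ b ∈ l, t ≠ b := by
        have := (eventually_all_finite (l.finite_toSet)).2 fun b _ => eventually_ne_cocompact b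
        exact this
      filter_upwards [e3] with t ht
      rw [hfg t, ← mul_assoc, ← List.prod_map_mul]
      congr 2
      refine List.map_congr_left fun b hb => ?_
      have := sub_ne_zero.2 (ht b hb)
      field_simp) (by
      intro a ha h
      rcases mul_eq_zero.1 h with h | h
      · obtain ⟨b, hb, he⟩ := List.mem_map.1 (List.prod_eq_zero_iff.1 h)
        exact absurd (sub_eq_zero.1 he ▸ ha) hc
      · exact hg0 a h)
  have e1 : ∀ k, wn (fun u => f (C.Ψ k u)) ρ =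
      (l.map fun b => C.ind k ρ b).sum + wn (fun u => g (C.Ψ k u)) ρ := fun k => by
    obtain ⟨p1, p2⟩ := wn_list_prod l (F := fun b u => C.Ψ k u - b) hρ.le
      fun b hb => good_ind k h1 h2' (hloff b hb k)
    rw [← (hclose k).2]
    simp only [hfg]
    rw [wn_mul hρ.le p1 (hgg k), p2]
    rfl
  have e2 : ∀ k, wn (fun u => (l.map fun _ => C.Ψ k u - c).prod * g (C.Ψ k u)) ρ =
      (l.map fun _ => C.ind k ρ c).sum + wn (fun u => g (C.Ψ k u)) ρ := fun k => by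
    obtain ⟨p1, p2⟩ := wn_list_prod l (F := fun _ u => C.Ψ k u - c) hρ.le
      fun b _ => good_ind k h1 h2' (hcoff k)
    rw [wn_mul hρ.le p1 (hgg k), p2]
    rfl
  have e3 : ∀ (l' : List ℂ) (φ : ℂ → ℂ), ∑ k, (l'.map fun b => C.ind k ρ (φ b)).sum =
      (l'.map fun b => C.tot ρ (φ b)).sum := by
    intro l' φ
    induction l' with
    | nil => simp
    | cons b l' ih => simp only [List.map_cons, List.sum_cons, Finset.sum_add_distrib, ih, tot]
  simp only [e2, Finset.sum_add_distrib] at hZ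
  rw [e3 l fun _ => c, tot_compl h1 h2 hc] at hZ
  simp only [e1, Finset.sum_add_distrib]
  rw [e3 l fun b => b]
  have e4 : (l.map fun b => C.tot ρ b).sum + ∑ k, wn (fun u => g (C.Ψ k u)) ρ =
      (l.map fun b => C.tot ρ b + 1).sum := by
    rw [List.sum_map_add]
    simp only [List.map_const', List.sum_replicate, nsmul_eq_mul] at hZ ⊢
    linear_combination hZ
  rw [e4]
  have e5 : ∀ l' : List ℂ, (l'.map fun b => C.tot ρ b + 1).sum.re =
      (l'.map fun b => (C.tot ρ b + 1).re).sum := by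
    intro l'
    induction l' with
    | nil => simp
    | cons b l' ih => simp only [List.map_cons, List.sum_cons, add_re, ih] at ih ⊢
  rw [e5]
  refine List.single_le_sum (fun x hx => ?_) 1 (List.mem_map.2 ⟨a₀, ha₀l, by simp [htot₀]⟩)
  obtain ⟨b, hb, rfl⟩ := List.mem_map.1 hx
  rcases tot_cases h1 h2 (hloff b hb) with h | h <;> simp [h]

end Collar

end Pool.Agent.MP_476a06_an

end

section

/-! Zero counting for functions that are real, as half order differentials, on the boundary. -/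

set_option autoImplicit false

open Complex Metric Set Filter Topology MeasureTheory
open scoped Real Interval ComplexConjugate

namespace Pool.Agent.MP_476a06_an

lemma exists_unit {x y : ℂ} (h : ‖x‖ = ‖y‖) : ∃ r : ℂ, r ≠ 0 ∧ r * y + conj r * x = 0 := by
  by_cases hy : y = 0
  · have hx : x = 0 := by simpa [hy] using h
    exact ⟨1, one_ne_zero, by simp [hx, hy]⟩
  by_cases hxy : x = y
  · exact ⟨I, I_ne_zero, by simp [hxy]⟩
  · have hc : conj x * x = conj y * y := by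
      rw [conj_mul', conj_mul', h]
    have hy' : conj y ≠ 0 := by simpa using hy
    refine ⟨1 - x / y, ?_, ?_⟩
    · rw [sub_ne_zero, ne_comm, Ne, div_eq_one_iff_eq hy]
      exact hxy
    · simp only [map_sub, map_one, map_div₀]
      field_simp
      linear_combination -hc

lemma norm_lt_of_ne {S : Set ℂ} (hS : IsPreconnected S) {F G : ℂ → ℂ} (hF : ContinuousOn F S)
    (hG : ContinuousOn G S) (hne : ∀ t ∈ S, ‖F t‖ ≠ ‖G t‖) {a : ℂ} (ha : a ∈ S)
    (hlt : ‖F a‖ < ‖G a‖) : ∀ t ∈ S, ‖F t‖ < ‖G t‖ := by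
  intro t ht
  by_contra h
  obtain ⟨x, hx, he⟩ := hS.intermediate_value₂ ha ht hF.norm hG.norm hlt.le (not_lt.1 h)
  exact hne x hx he

namespace Collar

variable {Ω : Set ℂ} {n : ℕ} {C : Collar Ω n}

/-- The local inequality at one boundary curve. -/
lemma wn_real_le (k : Fin n) {a ρ : ℝ} (h0 : 1 - C.δ < a) (h1 : a < ρ) (h2 : ρ < 1) {G : ℂ → ℂ}
    (hc : ContinuousOn G {u | ρ ≤ ‖u‖ ∧ ‖u‖ ≤ 1})
    (hd : ∀ u, a < ‖u‖ → ‖u‖ < 1 → AnalyticAt ℂ G u)
    (hreal : ∀ u, ‖u‖ = 1 → G u * (u * deriv (C.Ψ k) u) = conj (G u) * ‖deriv (C.Ψ k) u‖)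
    (hne : ∀ u, ‖u‖ = ρ → G u ≠ 0) : (wn G ρ).re ≤ 0 := by
  have hδ := C.δ_pos
  have hρ1 : 1 - C.δ < ρ := h0.trans h1
  have hρ := pos_of hρ1
  have hG : Good G ρ := fun u hu => by
    have hu' : ‖u‖ = ρ := by simpa using hu
    exact ⟨hd u (hu' ▸ h1) (hu' ▸ h2), hne u hu'⟩
  have hT := good_tangent k hρ1 (by linarith)
  set q : ℂ → ℂ := fun u => G u * G u * (u * deriv (C.Ψ k) u) with hq
  have hqG : Good q ρ := (hG.mul hG).mul hT
  have hqw : wn q ρ = wn G ρ + wn G ρ + -1 := by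
    rw [hq, wn_mul hρ.le (hG.mul hG) hT, wn_mul hρ.le hG hG, wn_tangent k hρ1 h2.le]
  obtain ⟨m, hm, hm'⟩ := (isCompact_sphere (0 : ℂ) ρ).exists_forall_le' (f := fun u => ‖q u‖) (a := 0)
    (fun u hu => (hqG u hu).1.continuousAt.norm.continuousWithinAt)
    (fun u hu => norm_pos_iff.2 (hqG u hu).2)
  have hqa : ∀ u, a < ‖u‖ → ‖u‖ < 1 → AnalyticAt ℂ (fun u => q u + ((m / 2 : ℝ) : ℂ)) u :=
    fun u e1 e2 => (((hd u e1 e2).mul (hd u e1 e2)).mul
      (analyticAt_id.mul (C.an k u (by linarith) (by linarith)).deriv)).add analyticAt_const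
  obtain ⟨g1, e1⟩ := wn_eq_of_close hρ.le hqG (g := fun u => q u + ((m / 2 : ℝ) : ℂ)) fun u hu => by
    have hu' : ‖u‖ = ρ := by simpa using hu
    refine ⟨hqa u (hu' ▸ h1) (hu' ▸ h2), ?_⟩
    rw [add_sub_cancel_left, norm_real, Real.norm_eq_abs, abs_of_pos (half_pos hm)]
    linarith [hm' u hu]
  obtain ⟨ε, hε, hε'⟩ := exists_annulus_of_nhds (ρ := 1)
    (P := fun u => u ∈ {u : ℂ | ρ ≤ ‖u‖ ∧ ‖u‖ ≤ 1} → 0 < (q u + ((m / 2 : ℝ) : ℂ)).re) one_pos (by
      intro v hv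
      have hv' : v ∈ {u : ℂ | ρ ≤ ‖u‖ ∧ ‖u‖ ≤ 1} := ⟨by linarith, hv.le⟩
      have c1 : ContinuousWithinAt (fun u => (q u + ((m / 2 : ℝ) : ℂ)).re)
          {u : ℂ | ρ ≤ ‖u‖ ∧ ‖u‖ ≤ 1} v := by
        refine continuous_re.continuousAt.comp_continuousWithinAt ?_
        exact (((hc v hv').mul (hc v hv')).mul (continuousAt_id.mul
          (C.an k v (by linarith) (by linarith)).deriv.continuousAt).continuousWithinAt).add
          continuousWithinAt_const
      have c2 : 0 < (q v + ((m / 2 : ℝ) : ℂ)).re := by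
        have : q v = ((‖G v‖ ^ 2 * ‖deriv (C.Ψ k) v‖ : ℝ) : ℂ) := by
          simp only [hq]
          rw [mul_assoc, hreal v hv, ← mul_assoc, mul_conj']
          push_cast
          ring
        rw [this, ← ofReal_add, ofReal_re]
        positivity
      exact eventually_nhdsWithin_iff.1 (c1.eventually (lt_mem_nhds c2)))
  set ρ₀ := max ρ (1 - ε / 2) with hρ₀
  have r1 : ρ ≤ ρ₀ := le_max_left _ _
  have r2 : 1 - ε / 2 ≤ ρ₀ := le_max_right _ _
  have r3 : ρ₀ < 1 := max_lt h2 (by linarith)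
  have hs : ∀ u ∈ sphere (0 : ℂ) ρ₀, AnalyticAt ℂ (fun u => q u + ((m / 2 : ℝ) : ℂ)) u ∧
      q u + ((m / 2 : ℝ) : ℂ) ∈ slitPlane := fun u hu => by
    have hu' : ‖u‖ = ρ₀ := by simpa using hu
    exact ⟨hqa u (by linarith) (by linarith),
      Or.inl (hε' u (by linarith) (by linarith) ⟨by linarith, by linarith⟩)⟩
  have e2 := wn_slit (by linarith : 0 ≤ ρ₀) hs
  have e3 := wn_annulus_le (pos_of h0).le h1 r1 r3
    (fun u hu => (hqa u hu.1 hu.2).differentiableAt.differentiableWithinAt)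
    (fun u hu => (g1 u hu).2) (fun u hu => slitPlane_ne_zero (hs u hu).2)
  rw [e2, e1, hqw] at e3
  obtain ⟨j, hj⟩ := hG.exists_int hρ.le
  rw [hj] at e3 ⊢
  simp only [add_re, intCast_re, neg_re, one_re, zero_re] at e3 ⊢
  have : j + j + -1 ≤ 0 := by exact_mod_cast e3
  have : j ≤ 0 := by omega
  exact_mod_cast this

lemma exists_level {f : ℂ → ℂ} (hf : DifferentiableOn ℂ f Ω) (hne : ∃ x ∈ Ω, f x ≠ 0) {a : ℝ}
    (h0 : 1 - C.δ < a) (h1 : a < 1) :
    ∃ ρ, a < ρ ∧ ρ < 1 ∧ ∀ k u, ‖u‖ = ρ → f (C.Ψ k u) ≠ 0 := by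
  have hδ := C.δ_pos
  set x := (2 * a + 1) / 3 with hx
  set y := (a + 2) / 3 with hy
  have hfin : ∀ k, {u : ℂ | (x ≤ ‖u‖ ∧ ‖u‖ ≤ y) ∧ f (C.Ψ k u) = 0}.Finite := by
    intro k
    have hK : IsCompact (C.Ψ k '' {u : ℂ | x ≤ ‖u‖ ∧ ‖u‖ ≤ y}) :=
      (isCompact_annulus x y).image_of_continuousOn fun u hu =>
        (C.an k u (by linarith [hu.1]) (by linarith [hu.2])).continuousAt.continuousWithinAt
    have hZ := finite_zeros C.isOpen C.conn hK (by
      rintro _ ⟨u, hu, rfl⟩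
      exact C.inside k u (by linarith [hu.1]) (by linarith [hu.2])) hf hne
    refine Set.Finite.of_finite_image (f := C.Ψ k) (hZ.subset ?_) ?_
    · rintro _ ⟨u, hu, rfl⟩
      exact ⟨⟨u, hu.1, rfl⟩, hu.2⟩
    · intro u hu v hv he
      exact (C.inj k k u v (by linarith [hu.1.1]) (by linarith [hu.1.2]) (by linarith [hv.1.1])
        (by linarith [hv.1.2]) he).2
  have hfin' := Set.finite_iUnion fun k => (hfin k).image norm
  obtain ⟨ρ, hρ, hρ'⟩ := (Set.Icc_infinite (show x < y by linarith)).exists_notMem_finite hfin'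
  refine ⟨ρ, by linarith [hρ.1], by linarith [hρ.2], fun k u hu he => hρ' ?_⟩
  exact mem_iUnion.2 ⟨k, u, ⟨by rw [hu]; exact hρ, he⟩, hu⟩

/-- A real section with two poles cannot have two zeros. -/
theorem key {c : ℂ} (hc : c ∉ Ω) {a₁ a₂ b₁ b₂ : ℂ} (ha₁ : a₁ ∈ Ω) (ha₂ : a₂ ∈ Ω) (hb₁ : b₁ ∈ Ω)
    (hb₂ : b₂ ∈ Ω) {H h : ℂ → ℂ} {r s : ℂ} (hH : DifferentiableOn ℂ H Ω)
    (hHc : ContinuousOn H (closure Ω)) (hH0 : Tendsto H (cocompact ℂ) (𝓝 0))
    (hreal : ∀ k u, ‖u‖ = 1 →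
      (H (C.Ψ k u) + r * (C.Ψ k u - a₁)⁻¹ + s * (C.Ψ k u - a₂)⁻¹) * (u * deriv (C.Ψ k) u) =
        conj (H (C.Ψ k u) + r * (C.Ψ k u - a₁)⁻¹ + s * (C.Ψ k u - a₂)⁻¹) * ‖deriv (C.Ψ k) u‖)
    (hh : DifferentiableOn ℂ h Ω)
    (he : ∀ t, h t * (t - b₁) * (t - b₂) = (t - a₁) * (t - a₂) * H t + r * (t - a₂) + s * (t - a₁)) :
    ∀ x ∈ Ω, h x = 0 := by
  by_contra hne
  push Not at hne
  have hδ := C.δ_pos
  set g : ℂ → ℂ := fun t => H t + r * (t - a₁)⁻¹ + s * (t - a₂)⁻¹ with hg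
  have he' : ∀ t, t ≠ a₁ → t ≠ a₂ → h t * (t - b₁) * (t - b₂) = g t * (t - a₁) * (t - a₂) := by
    intro t e1 e2
    have := sub_ne_zero.2 e1
    have := sub_ne_zero.2 e2
    rw [he t, hg]
    field_simp
  have hev : ∀ᶠ ρ in 𝓝[<] (1 : ℝ), 1 - C.δ < ρ :=
    nhdsWithin_le_nhds (eventually_gt_nhds (by linarith))
  obtain ⟨a, ⟨⟨o1, o2⟩, o3, o4⟩, h0, h1⟩ := ((((eventually_off (C := C) ha₁).and
    (eventually_off (C := C) ha₂)).and ((eventually_off (C := C) hb₁).and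
    (eventually_off (C := C) hb₂))).and (hev.and self_mem_nhdsWithin)).exists
  have h1' : a < 1 := h1
  obtain ⟨ρ, r1, r2, hρ0⟩ := exists_level hh hne h0 h1'
  have r0 : 1 - C.δ < ρ := h0.trans r1
  have hρ := pos_of r0
  have hg0 : Tendsto g (cocompact ℂ) (𝓝 0) := by
    have := (hH0.add ((tendsto_inv_sub a₁).const_mul r)).add ((tendsto_inv_sub a₂).const_mul s)
    simpa using this
  have hh0 : Tendsto h (cocompact ℂ) (𝓝 0) := by
    have := (hg0.mul (tendsto_ratio b₁ a₁)).mul (tendsto_ratio b₂ a₂)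
    rw [zero_mul, zero_mul] at this
    refine this.congr' ?_
    filter_upwards [eventually_ne_cocompact a₁, eventually_ne_cocompact a₂,
      eventually_ne_cocompact b₁, eventually_ne_cocompact b₂] with t e1 e2 e3 e4
    have := sub_ne_zero.2 e3
    have := sub_ne_zero.2 e4
    have e5 := he' t e1 e2
    field_simp
    linear_combination -e5
  have hA := one_le_sum_wn r0 r2 hc hh hh0 hne hρ0
  have hB : ∀ k, (wn (fun u => h (C.Ψ k u)) ρ).re ≤ 0 := by
    intro k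
    have hga : ∀ u, a < ‖u‖ → ‖u‖ < 1 → AnalyticAt ℂ (fun u => g (C.Ψ k u)) u := by
      intro u e1 e2
      have an := C.an k u (by linarith) (by linarith)
      exact (((hH.analyticAt (C.isOpen.mem_nhds (C.inside k u (by linarith) e2))).comp an).add
        (analyticAt_const.mul ((an.sub analyticAt_const).inv
          (sub_ne_zero.2 (o1 k u e1.le e2.le))))).add
        (analyticAt_const.mul ((an.sub analyticAt_const).inv (sub_ne_zero.2 (o2 k u e1.le e2.le))))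
    have off : ∀ {x : ℂ}, (∀ k u, a ≤ ‖u‖ → ‖u‖ ≤ 1 → C.Ψ k u ≠ x) →
        ∀ u, ‖u‖ = ρ → C.Ψ k u ≠ x := fun o u hu => o k u (by linarith) (by linarith)
    have hgne : ∀ u, ‖u‖ = ρ → g (C.Ψ k u) ≠ 0 := by
      intro u hu e
      have := he' _ (off o1 u hu) (off o2 u hu)
      rw [e, zero_mul, zero_mul] at this
      exact mul_ne_zero (mul_ne_zero (hρ0 k u hu) (sub_ne_zero.2 (off o3 u hu)))
        (sub_ne_zero.2 (off o4 u hu)) this
    have hgG : Good (fun u => g (C.Ψ k u)) ρ := fun u hu => by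
      have hu' : ‖u‖ = ρ := by simpa using hu
      exact ⟨hga u (by linarith) (by linarith), hgne u hu'⟩
    have hhG := good_comp r0 r2 hh k (hρ0 k)
    have gi : ∀ {x : ℂ}, (∀ k u, a ≤ ‖u‖ → ‖u‖ ≤ 1 → C.Ψ k u ≠ x) →
        Good (fun u => C.Ψ k u - x) ρ := fun o => good_ind k r0 (by linarith) (off o)
    have zi : ∀ {x : ℂ}, x ∈ Ω → (∀ k u, a ≤ ‖u‖ → ‖u‖ ≤ 1 → C.Ψ k u ≠ x) →
        wn (fun u => C.Ψ k u - x) ρ = 0 := fun hx o =>
      ind_zero k r0 r2.le hx fun u e1 e2 => o k u (by linarith) e2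
    have e1 : wn (fun u => h (C.Ψ k u) * (C.Ψ k u - b₁) * (C.Ψ k u - b₂)) ρ =
        wn (fun u => g (C.Ψ k u) * (C.Ψ k u - a₁) * (C.Ψ k u - a₂)) ρ := by
      refine wn_congr hρ.le fun u hu => ?_
      have hu' : ‖u‖ = ρ := by simpa using hu
      have cc := (C.an k u (by linarith) (by linarith)).continuousAt
      filter_upwards [cc.eventually_ne (off o1 u hu'), cc.eventually_ne (off o2 u hu')] with v e1 e2
      exact he' _ e1 e2
    rw [wn_mul hρ.le (hhG.mul (gi o3)) (gi o4), wn_mul hρ.le hhG (gi o3),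
      wn_mul hρ.le (hgG.mul (gi o1)) (gi o2), wn_mul hρ.le hgG (gi o1),
      zi ha₁ o1, zi ha₂ o2, zi hb₁ o3, zi hb₂ o4] at e1
    simp only [add_zero] at e1
    rw [e1]
    refine wn_real_le k h0 r1 r2 ?_ hga (hreal k) hgne
    intro u hu
    have an := (C.an k u (by linarith [hu.1]) (by linarith [hu.2])).continuousAt
    refine ContinuousWithinAt.add (ContinuousWithinAt.add ?_ ?_) ?_
    · exact (hHc _ (mem_closure_of k (by linarith [hu.1]) hu.2)).comp an.continuousWithinAt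
        fun v hv => mem_closure_of k (by linarith [hv.1]) hv.2
    · exact (continuousAt_const.mul ((an.sub continuousAt_const).inv₀
        (sub_ne_zero.2 (o1 k u (by linarith [hu.1]) hu.2)))).continuousWithinAt
    · exact (continuousAt_const.mul ((an.sub continuousAt_const).inv₀
        (sub_ne_zero.2 (o2 k u (by linarith [hu.1]) hu.2)))).continuousWithinAt
  rw [re_sum] at hA
  linarith [Finset.sum_nonpos fun k (_ : k ∈ Finset.univ) => hB k]

end Collar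

end Pool.Agent.MP_476a06_an

end
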